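import Pool.Agent.H84.B2.Targets
import Pool.Agent.H14.LS.Main3

/-!
Basic facts for the sum of the pieces (MP_ee74d2_an, stage 2): measurability, dyadic decomposition of
a block of frequencies, splitting of the data and of the output.
-/

set_option autoImplicit false

namespace Pool.Agent.H84.BR

open MeasureTheory Set FourierTransform
open Pool.Agent.H83.LS Pool.Agent.H93.AR Pool.Agent.H54.LS Pool.Agent.H83.AR
open Pool.Agent.H84.B2
open scoped ENNReal NNReal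

/-- dyadic cutoffs -/
noncomputable def ck (Lam0 : ℝ) (k : ℕ) (s : ℝ) : ℝ :=
  if k = 0 then eta0 (s / Lam0) else chi (s / (2 ^ k * Lam0))

theorem ck_meas (Lam0 : ℝ) (k : ℕ) : Measurable (ck Lam0 k) := by
  unfold ck
  by_cases h : k = 0
  · simp only [h, if_true]
    exact Pool.Agent.H14.LS.eta0_smooth.continuous.measurable.comp (measurable_id.div_const _)
  · simp only [h, if_false]
    exact (Pool.Agent.H19.LS.chi_smooth.continuous.measurable).comp (measurable_id.div_const _)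

theorem ck_abs (Lam0 : ℝ) (k : ℕ) (s : ℝ) : |ck Lam0 k s| ≤ 1 := by
  unfold ck
  split_ifs
  · rw [abs_of_nonneg (Pool.Agent.H14.LS.eta0_nonneg _)]
    exact Pool.Agent.H14.LS.eta0_le_one _
  · exact Pool.Agent.H19.LS.chi_abs _

theorem ck_sum (Lam0 : ℝ) (h0 : 0 < Lam0) (K : ℕ) (s : ℝ) (hs : s ≤ 2 ^ K * Lam0) :
    ∑ k ∈ Finset.range (K + 1), ck Lam0 k s = 1 := by
  rw [Finset.sum_range_succ']
  have h1 : ∀ k ∈ Finset.range K, ck Lam0 (k + 1) s = chi (s / Lam0 / 2 ^ (k + 1)) := by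
    intro k _
    unfold ck
    rw [if_neg (by omega), div_div, mul_comm Lam0]
  rw [Finset.sum_congr rfl h1]
  have h2 : ck Lam0 0 s = eta0 (s / Lam0) := by
    unfold ck
    rw [if_pos rfl]
  rw [h2, add_comm, Pool.Agent.H14.LS.lp_sum]
  apply Pool.Agent.H14.LS.eta0_one
  rw [div_div, div_le_one (by positivity), mul_comm]
  exact hs

section

variable {d : ℕ} (lam : ℝ) (s : ℝ → EE d → ℂ)

/-- admissible families of symbols -/
structure Sym : Prop where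
  ct : ∀ ξ, Continuous fun t => s t ξ
  ms : ∀ t, Measurable (s t)
  le : ∀ t ξ, ‖s t ξ‖ ≤ ‖mT lam t ξ‖

end

theorem norm_mT {d : ℕ} (lam t : ℝ) (ξ : EE d) : ‖mT lam t ξ‖ = ‖mT lam 0 ξ‖ := by
  unfold mT
  rw [norm_mul, norm_mul, norm_e, norm_e]

theorem Sym.mul {d : ℕ} {lam : ℝ} {s : ℝ → EE d → ℂ} (hs : Sym lam s) (c : EE d → ℝ)
    (hc : Measurable c) (hc1 : ∀ ξ, |c ξ| ≤ 1) : Sym lam (fun t ξ => s t ξ * ((c ξ : ℝ) : ℂ)) where
  ct ξ := (hs.ct ξ).mul continuous_const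
  ms t := (hs.ms t).mul (Complex.measurable_ofReal.comp hc)
  le t ξ := by
    rw [norm_mul, Complex.norm_real, Real.norm_eq_abs]
    calc ‖s t ξ‖ * |c ξ| ≤ ‖s t ξ‖ * 1 := mul_le_mul_of_nonneg_left (hc1 ξ) (norm_nonneg _)
      _ ≤ _ := by rw [mul_one]; exact hs.le t ξ

theorem sym_mc {a b : ℕ} (c₁ c₂ : ℝ → ℝ) (lam : ℝ) (h1 : Measurable c₁) (h2 : Measurable c₂)
    (h3 : ∀ s, |c₁ s| ≤ 1) (h4 : ∀ s, |c₂ s| ≤ 1) (hJB : T_JB) (hl : 0 < lam) :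
    Sym lam (mc a b c₁ c₂ lam) where
  ct ξ := by
    unfold mc mT
    refine Continuous.mul (Continuous.mul ?_ continuous_const) continuous_const
    exact continuous_e.comp (by fun_prop)
  ms t := by
    have hp1 := (hJB a b).2.2.1
    have hp2 := (hJB a b).2.2.2.1
    unfold mc
    refine (Pool.Agent.H19.LS.mT_cont lam hl t).measurable.mul (Complex.measurable_ofReal.comp ?_)
    exact (h1.comp hp1.norm.measurable).mul (h2.comp hp2.norm.measurable)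
  le t ξ := by
    unfold mc
    rw [norm_mul, Complex.norm_real, Real.norm_eq_abs, abs_mul]
    have h5 : |c₁ ‖p1 a b ξ‖| * |c₂ ‖p2 a b ξ‖| ≤ 1 * 1 :=
      mul_le_mul (h3 _) (h4 _) (abs_nonneg _) zero_le_one
    calc ‖mT lam t ξ‖ * (|c₁ ‖p1 a b ξ‖| * |c₂ ‖p2 a b ξ‖|) ≤ ‖mT lam t ξ‖ * (1 * 1) :=
          mul_le_mul_of_nonneg_left h5 (norm_nonneg _)
      _ = _ := by ring

theorem sym_int {d : ℕ} {lam : ℝ} (hl : 0 < lam) {s : ℝ → EE d → ℂ} (hs : Sym lam s) (t : ℝ)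
    (g : EE d → ℂ) (hg : Integrable g) : Integrable fun ξ => s t ξ * 𝓕 g ξ := by
  have h1 : Integrable fun ξ : EE d => mT lam 0 ξ * 𝓕 g ξ := by
    have hfc : Continuous (𝓕 g) := Pool.Agent.H19.LS.fourier_cont g hg
    apply ((Pool.Agent.H19.LS.mT_cont lam hl 0).mul hfc).integrable_of_hasCompactSupport
    refine HasCompactSupport.of_support_subset_isCompact
      (isCompact_closedBall (0 : EE d) (2 * lam)) ?_
    intro ξ hξ
    rw [mem_closedBall_zero_iff]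
    apply Pool.Agent.H19.LS.mT_supp lam hl 0 ξ
    intro h0
    apply hξ
    change mT lam 0 ξ * 𝓕 g ξ = 0
    rw [h0, zero_mul]
  have hfm : Measurable (𝓕 g) := (Pool.Agent.H19.LS.fourier_cont g hg).measurable
  refine h1.mono ((hs.ms t).mul hfm).aestronglyMeasurable (Filter.Eventually.of_forall fun ξ => ?_)
  rw [norm_mul, norm_mul, ← norm_mT lam t ξ]
  exact mul_le_mul_of_nonneg_right (hs.le t ξ) (norm_nonneg _)

theorem sym_int' {d : ℕ} {lam : ℝ} (hl : 0 < lam) {s : ℝ → EE d → ℂ} (hs : Sym lam s) (t : ℝ)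
    (g : EE d → ℂ) (hg : Integrable g) (x : EE d) :
    Integrable fun ξ => e (inner ℝ x ξ) * (s t ξ * 𝓕 g ξ) := by
  refine (sym_int hl hs t g hg).bdd_mul (c := 1) ?_ (Filter.Eventually.of_forall fun ξ => ?_)
  · exact (continuous_e.comp (by fun_prop)).aestronglyMeasurable
  · rw [norm_e]

theorem sym_cont {d : ℕ} {lam : ℝ} (hl : 0 < lam) {s : ℝ → EE d → ℂ} (hs : Sym lam s)
    (g : EE d → ℂ) (hg : Integrable g) :
    Continuous fun q : ℝ × EE d => MM (s q.1) g q.2 := by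
  unfold MM
  have hfm : Measurable (𝓕 g) := (Pool.Agent.H19.LS.fourier_cont g hg).measurable
  apply continuous_of_dominated (bound := fun ξ : EE d => ‖mT lam 0 ξ * 𝓕 g ξ‖)
  · intro q
    exact (sym_int' hl hs q.1 g hg q.2).aestronglyMeasurable
  · intro q
    refine Filter.Eventually.of_forall fun ξ => ?_
    rw [norm_mul, norm_e, one_mul, norm_mul, norm_mul, ← norm_mT lam q.1 ξ]
    exact mul_le_mul_of_nonneg_right (hs.le q.1 ξ) (norm_nonneg _)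
  · have h0 : Sym lam (fun t : ℝ => mT (d := d) lam t) :=
      { ct := fun ξ => by
          unfold mT
          exact (continuous_e.comp (by fun_prop)).mul continuous_const
        ms := fun t => (Pool.Agent.H19.LS.mT_cont lam hl t).measurable
        le := fun t ξ => le_rfl }
    exact (sym_int hl h0 0 g hg).norm
  · refine Filter.Eventually.of_forall fun ξ => ?_
    exact (continuous_e.comp (by fun_prop)).mul
      (((hs.ct ξ).comp continuous_fst).mul continuous_const)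

/-- space-time measure over a region -/
noncomputable abbrev muE {d : ℕ} (E : Set (EE d)) : Measure (ℝ × EE d) :=
  (volume.restrict (Icc (1 : ℝ) 2)).prod (volume.restrict E)

theorem J_eq {d : ℕ} (E : Set (EE d)) (F : ℝ × EE d → ℝ≥0∞) (hF : Measurable F) :
    ∫⁻ t in Icc (1 : ℝ) 2, ∫⁻ x in E, F (t, x) = ∫⁻ q, F q ∂(muE E) :=
  (lintegral_prod _ hF.aemeasurable).symm

theorem J_union {d : ℕ} (E E' : Set (EE d)) (F : ℝ × EE d → ℝ≥0∞) (hF : Measurable F) :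
    ∫⁻ t in Icc (1 : ℝ) 2, ∫⁻ x in E ∪ E', F (t, x) ≤
      (∫⁻ t in Icc (1 : ℝ) 2, ∫⁻ x in E, F (t, x)) +
        ∫⁻ t in Icc (1 : ℝ) 2, ∫⁻ x in E', F (t, x) := by
  rw [← lintegral_add_left (μ := volume.restrict (Icc (1 : ℝ) 2))
    (f := fun t => ∫⁻ x in E, F (t, x)) hF.lintegral_prod_right']
  exact lintegral_mono fun t => lintegral_union_le _ _ _

theorem J_mono {d : ℕ} {E E' : Set (EE d)} (h : E ⊆ E') (F : ℝ × EE d → ℝ≥0∞) :
    ∫⁻ t in Icc (1 : ℝ) 2, ∫⁻ x in E, F (t, x) ≤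
      ∫⁻ t in Icc (1 : ℝ) 2, ∫⁻ x in E', F (t, x) :=
  lintegral_mono fun _ => lintegral_mono_set h

theorem J_monoE {d : ℕ} {E E' : Set (EE d)} (h : E ⊆ E') (F : ℝ → EE d → ℝ≥0∞) :
    ∫⁻ t in Icc (1 : ℝ) 2, ∫⁻ x in E, F t x ≤
      ∫⁻ t in Icc (1 : ℝ) 2, ∫⁻ x in E', F t x :=
  lintegral_mono fun _ => lintegral_mono_set h

theorem sym_meas {d : ℕ} {lam : ℝ} (hl : 0 < lam) {s : ℝ → EE d → ℂ} (hs : Sym lam s)
    (g : EE d → ℂ) (hg : Integrable g) (p : ℝ) :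
    Measurable fun q : ℝ × EE d => ‖MM (s q.1) g q.2‖ₑ ^ p :=
  (sym_cont hl hs g hg).measurable.enorm.pow_const p

/-- dyadic decomposition -/
theorem dyadic_bound {d : ℕ} {lam Lam0 : ℝ} (hl : 0 < lam) (h0 : 0 < Lam0) {K : ℕ}
    (hK : 2 * lam ≤ 2 ^ K * Lam0) {s : ℝ → EE d → ℂ} (hs : Sym lam s) (ν : EE d → ℝ)
    (hν : Measurable ν) (hν1 : ∀ ξ, ν ξ ≤ ‖ξ‖) (g : EE d → ℂ) (hg : Integrable g) {p : ℝ}
    (hp : 1 ≤ p) (E : Set (EE d)) :
    ∫⁻ t in Icc (1 : ℝ) 2, ∫⁻ x in E, ‖MM (s t) g x‖ₑ ^ p ≤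
      ((K + 1 : ℕ) : ℝ≥0∞) ^ p * ∑ k ∈ Finset.range (K + 1),
        ∫⁻ t in Icc (1 : ℝ) 2, ∫⁻ x in E,
          ‖MM (fun ξ => s t ξ * ((ck Lam0 k (ν ξ) : ℝ) : ℂ)) g x‖ₑ ^ p := by
  have hsk : ∀ k, Sym lam (fun t ξ => s t ξ * ((ck Lam0 k (ν ξ) : ℝ) : ℂ)) := fun k =>
    hs.mul (fun ξ => ck Lam0 k (ν ξ)) ((ck_meas Lam0 k).comp hν) (fun ξ => ck_abs _ _ _)
  have hpt : ∀ (t : ℝ) (x : EE d), MM (s t) g x = ∑ k ∈ Finset.range (K + 1),
      MM (fun ξ => s t ξ * ((ck Lam0 k (ν ξ) : ℝ) : ℂ)) g x := by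
    intro t x
    unfold MM
    rw [← integral_finsetSum _ (fun k _ => sym_int' hl (hsk k) t g hg x)]
    refine integral_congr_ae (Filter.Eventually.of_forall fun ξ => ?_)
    show e (inner ℝ x ξ) * (s t ξ * 𝓕 g ξ) = ∑ k ∈ Finset.range (K + 1),
      e (inner ℝ x ξ) * (s t ξ * ((ck Lam0 k (ν ξ) : ℝ) : ℂ) * 𝓕 g ξ)
    have h1 : ∑ k ∈ Finset.range (K + 1),
        e (inner ℝ x ξ) * (s t ξ * ((ck Lam0 k (ν ξ) : ℝ) : ℂ) * 𝓕 g ξ) =
        e (inner ℝ x ξ) * (s t ξ * 𝓕 g ξ) *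
          ((∑ k ∈ Finset.range (K + 1), ck Lam0 k (ν ξ) : ℝ) : ℂ) := by
      rw [Complex.ofReal_sum, Finset.mul_sum]
      refine Finset.sum_congr rfl fun k _ => ?_
      ring
    rw [h1]
    by_cases hz : s t ξ = 0
    · rw [hz]; simp
    · have h2 : mT lam t ξ ≠ 0 := by
        intro h
        have := hs.le t ξ
        rw [h, norm_zero] at this
        exact hz (norm_le_zero_iff.1 this)
      have h3 := Pool.Agent.H19.LS.mT_supp lam hl t ξ h2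
      rw [ck_sum Lam0 h0 K (ν ξ) ((hν1 ξ).trans (h3.trans hK))]
      simp
  have hm : ∀ k, Measurable fun q : ℝ × EE d =>
      ‖MM (fun ξ => s q.1 ξ * ((ck Lam0 k (ν ξ) : ℝ) : ℂ)) g q.2‖ₑ ^ p := fun k =>
    sym_meas hl (hsk k) g hg p
  calc ∫⁻ t in Icc (1 : ℝ) 2, ∫⁻ x in E, ‖MM (s t) g x‖ₑ ^ p
      = ∫⁻ q, ‖MM (s q.1) g q.2‖ₑ ^ p ∂(muE E) :=
        J_eq E (fun q => ‖MM (s q.1) g q.2‖ₑ ^ p) (sym_meas hl hs g hg p)
    _ ≤ ∫⁻ q, ((K + 1 : ℕ) : ℝ≥0∞) ^ p * ∑ k ∈ Finset.range (K + 1),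
          ‖MM (fun ξ => s q.1 ξ * ((ck Lam0 k (ν ξ) : ℝ) : ℂ)) g q.2‖ₑ ^ p ∂(muE E) := by
        refine lintegral_mono fun q => ?_
        show ‖MM (s q.1) g q.2‖ₑ ^ p ≤ _
        rw [hpt q.1 q.2]
        refine le_trans (ENNReal.rpow_le_rpow (enorm_sum_le _ _) (by linarith)) ?_
        exact Pool.Agent.H14.LS.fin_sum_pow hp (K + 1) _
    _ = _ := by
        have hne : ((K + 1 : ℕ) : ℝ≥0∞) ^ p ≠ ⊤ :=
          ENNReal.rpow_ne_top_of_nonneg (by linarith) (ENNReal.natCast_ne_top _)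
        rw [lintegral_const_mul' _ _ hne, lintegral_finsetSum _ (fun k _ => hm k)]
        congr 1
        refine Finset.sum_congr rfl fun k _ => ?_
        exact (J_eq E (fun q => ‖MM (fun ξ => s q.1 ξ * ((ck Lam0 k (ν ξ) : ℝ) : ℂ)) g q.2‖ₑ ^ p)
          (hm k)).symm

/-- splitting of the data and of the output -/
theorem split_bound {d : ℕ} {lam : ℝ} (hl : 0 < lam) {s : ℝ → EE d → ℂ} (hs : Sym lam s)
    (g gb gg : EE d → ℂ) (hgb : Integrable gb) (hgg : Integrable gg)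
    (hsum : ∀ x, g x = gb x + gg x) {p : ℝ} (hp : 1 ≤ p) (E E₁ E₂ : Set (EE d))
    (hE : E ⊆ E₁ ∪ E₂) :
    ∫⁻ t in Icc (1 : ℝ) 2, ∫⁻ x in E, ‖MM (s t) g x‖ₑ ^ p ≤
      2 ^ (p - 1) * ((∫⁻ t in Icc (1 : ℝ) 2, ∫⁻ x in E, ‖MM (s t) gb x‖ₑ ^ p) +
        ((∫⁻ t in Icc (1 : ℝ) 2, ∫⁻ x in E₁, ‖MM (s t) gg x‖ₑ ^ p) +
          ∫⁻ t in Icc (1 : ℝ) 2, ∫⁻ x in E₂, ‖MM (s t) gg x‖ₑ ^ p)) := by
  have hgi : Integrable g := by
    have : g = fun x => gb x + gg x := funext hsum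
    rw [this]
    exact hgb.add hgg
  have hpt : ∀ (t : ℝ) (x : EE d), MM (s t) g x = MM (s t) gb x + MM (s t) gg x := by
    intro t x
    have hF : ∀ ξ, 𝓕 g ξ = 𝓕 gb ξ + 𝓕 gg ξ := by
      intro ξ
      rw [Real.fourier_eq, Real.fourier_eq, Real.fourier_eq, ← integral_add]
      · refine integral_congr_ae (Filter.Eventually.of_forall fun v => ?_)
        show _ • g v = _ • gb v + _ • gg v
        rw [hsum v, smul_add]
      · exact (Real.fourierIntegral_convergent_iff ξ).2 hgb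
      · exact (Real.fourierIntegral_convergent_iff ξ).2 hgg
    unfold MM
    rw [← integral_add (sym_int' hl hs t gb hgb x) (sym_int' hl hs t gg hgg x)]
    refine integral_congr_ae (Filter.Eventually.of_forall fun ξ => ?_)
    show e (inner ℝ x ξ) * (s t ξ * 𝓕 g ξ) = e (inner ℝ x ξ) * (s t ξ * 𝓕 gb ξ) +
      e (inner ℝ x ξ) * (s t ξ * 𝓕 gg ξ)
    rw [hF ξ]
    ring
  have hmb := sym_meas hl hs gb hgb p
  have hmg := sym_meas hl hs gg hgg p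
  calc ∫⁻ t in Icc (1 : ℝ) 2, ∫⁻ x in E, ‖MM (s t) g x‖ₑ ^ p
      = ∫⁻ q, ‖MM (s q.1) g q.2‖ₑ ^ p ∂(muE E) :=
        J_eq E (fun q => ‖MM (s q.1) g q.2‖ₑ ^ p) (sym_meas hl hs g hgi p)
    _ ≤ ∫⁻ q, 2 ^ (p - 1) * (‖MM (s q.1) gb q.2‖ₑ ^ p + ‖MM (s q.1) gg q.2‖ₑ ^ p) ∂(muE E) := by
        refine lintegral_mono fun q => ?_
        show ‖MM (s q.1) g q.2‖ₑ ^ p ≤ _
        rw [hpt q.1 q.2]
        refine le_trans (ENNReal.rpow_le_rpow (enorm_add_le _ _) (by linarith)) ?_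
        exact ENNReal.rpow_add_le_mul_rpow_add_rpow _ _ hp
    _ = 2 ^ (p - 1) * ((∫⁻ q, ‖MM (s q.1) gb q.2‖ₑ ^ p ∂(muE E)) +
          ∫⁻ q, ‖MM (s q.1) gg q.2‖ₑ ^ p ∂(muE E)) := by
        rw [lintegral_const_mul' _ _ (ENNReal.rpow_ne_top_of_nonneg (by linarith)
          ENNReal.ofNat_ne_top), lintegral_add_left hmb]
    _ ≤ _ := by
        apply mul_le_mul' le_rfl
        apply add_le_add
        · exact (J_eq E (fun q => ‖MM (s q.1) gb q.2‖ₑ ^ p) hmb).ge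
        · rw [← J_eq E (fun q => ‖MM (s q.1) gg q.2‖ₑ ^ p) hmg]
          refine (J_mono hE (fun q => ‖MM (s q.1) gg q.2‖ₑ ^ p)).trans ?_
          exact J_union E₁ E₂ (fun q => ‖MM (s q.1) gg q.2‖ₑ ^ p) hmg

/-- number of dyadic blocks -/
theorem exK {η q : ℝ} (hη : 0 < η) (hq : 1 ≤ q) : ∃ C : ℝ≥0, ∀ lam Lam0 : ℝ, 1 ≤ lam → 1 ≤ Lam0 →
    ∃ K : ℕ, 2 * lam ≤ 2 ^ K * Lam0 ∧ (∀ k, 1 ≤ k → k ≤ K → (2 : ℝ) ^ k * Lam0 ≤ 4 * lam) ∧
      ((K : ℝ) + 1) ^ q ≤ (C : ℝ) * lam ^ η := by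
  classical
  obtain ⟨C, hC⟩ := Pool.Agent.H14.LS.count hη hq
  refine ⟨C, fun lam Lam0 hl hL => ?_⟩
  obtain ⟨M, hM1, -, hM3⟩ := hC lam hl
  have hex : ∃ K : ℕ, 2 * lam ≤ 2 ^ K * Lam0 := by
    refine ⟨M, hM1.trans ?_⟩
    nlinarith [pow_pos (show (0 : ℝ) < 2 by norm_num) M]
  refine ⟨Nat.find hex, Nat.find_spec hex, ?_, ?_⟩
  · intro k hk1 hk2
    have h1 : ¬ (2 * lam ≤ 2 ^ (Nat.find hex - 1) * Lam0) := Nat.find_min hex (by omega)
    push Not at h1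
    have h2 : (2 : ℝ) ^ k ≤ 2 ^ (Nat.find hex) := pow_le_pow_right₀ (by norm_num) hk2
    have h3 : (2 : ℝ) ^ (Nat.find hex) = 2 * 2 ^ (Nat.find hex - 1) := by
      rw [← pow_succ']
      congr 1
      omega
    calc (2 : ℝ) ^ k * Lam0 ≤ 2 ^ (Nat.find hex) * Lam0 :=
          mul_le_mul_of_nonneg_right h2 (by linarith)
      _ = 2 * (2 ^ (Nat.find hex - 1) * Lam0) := by rw [h3]; ring
      _ ≤ 4 * lam := by linarith
  · refine le_trans ?_ hM3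
    apply Real.rpow_le_rpow (by positivity) _ (by linarith)
    have h4 : Nat.find hex ≤ M := Nat.find_min' hex (hM1.trans (by
      nlinarith [pow_pos (show (0 : ℝ) < 2 by norm_num) M]))
    have h5 : ((Nat.find hex : ℕ) : ℝ) ≤ M := by exact_mod_cast h4
    linarith

/-- sum over the blocks of one variable -/
theorem block {d : ℕ} {p η : ℝ} (hp : 2 < p) (hη : 0 < η) : ∃ C : ℝ≥0, ∀ (lam L A : ℝ)
    (s : ℝ → EE d → ℂ) (ν : EE d → ℝ) (P : (EE d → ℂ) → EE d → ℂ) (E : Set (EE d)) (B : ℝ≥0∞)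
    (f : EE d → ℂ), 1 ≤ L → L ^ 2 ≤ lam → Sym lam s → Measurable ν → (∀ ξ, ν ξ ≤ ‖ξ‖) →
    BI A f → (∀ g, BI A g → Integrable (P g)) →
    (∀ g h, BI A g → BI A h → (∀ x, f x = g x + h x) → ∀ x, P f x = P g x + P h x) →
    (∫⁻ t in Icc (1 : ℝ) 2, ∫⁻ x in E,
      ‖MM (fun ξ => s t ξ * ((eta0 (ν ξ / (L * Real.sqrt lam)) : ℝ) : ℂ)) (P f) x‖ₑ ^ p ≤
      B * ∫⁻ x, ‖f x‖ₑ ^ 2) →
    (∀ (Lam : ℝ) (g : EE d → ℂ), L * Real.sqrt lam ≤ Lam → Lam ≤ 4 * lam → BI A g →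
      (∀ x, g x ≠ 0 → f x ≠ 0) → (∀ x, g x ≠ 0 → Lam * ν x ≤ L ^ 2) →
      ∫⁻ t in Icc (1 : ℝ) 2, ∫⁻ x in E,
      ‖MM (fun ξ => s t ξ * ((chi (ν ξ / Lam) : ℝ) : ℂ)) (P g) x‖ₑ ^ p ≤
      B * ∫⁻ x, ‖g x‖ₑ ^ 2) →
    (∀ (Lam : ℝ) (g : EE d → ℂ), L * Real.sqrt lam ≤ Lam → Lam ≤ 4 * lam → BI A g →
      (∀ x, g x ≠ 0 → f x ≠ 0) →
      ∫⁻ t in Icc (1 : ℝ) 2, ∫⁻ x in E ∩ {x | Lam * ν x ≤ L ^ 2},
      ‖MM (fun ξ => s t ξ * ((chi (ν ξ / Lam) : ℝ) : ℂ)) (P g) x‖ₑ ^ p ≤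
      B * ∫⁻ x, ‖g x‖ₑ ^ 2) →
    (∀ (Lam : ℝ) (g : EE d → ℂ), L * Real.sqrt lam ≤ Lam → Lam ≤ 4 * lam → BI A g →
      (∀ x, g x ≠ 0 → L ^ 2 ≤ Lam * ν x) →
      ∫⁻ t in Icc (1 : ℝ) 2, ∫⁻ x in {x | L ^ 2 ≤ Lam * ν x},
      ‖MM (fun ξ => s t ξ * ((chi (ν ξ / Lam) : ℝ) : ℂ)) (P g) x‖ₑ ^ p ≤
      B * ∫⁻ x, ‖g x‖ₑ ^ 2) →
    ∫⁻ t in Icc (1 : ℝ) 2, ∫⁻ x in E, ‖MM (s t) (P f) x‖ₑ ^ p ≤
      C * ENNReal.ofReal (lam ^ η) * B * ∫⁻ x, ‖f x‖ₑ ^ 2 := by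
  classical
  obtain ⟨C, hC⟩ := exK (η := η) (q := p + 1) hη (by linarith)
  refine ⟨C * (3 * 2 ^ (p - 1)), ?_⟩
  intro lam L A s ν P E B f hL hL2 hs hν hν1 hf hPi hPa h0 hb hg1 hg2
  have hl : 1 ≤ lam := by nlinarith
  have hsq : 1 ≤ Real.sqrt lam := Real.one_le_sqrt.2 hl
  have hLam0 : 1 ≤ L * Real.sqrt lam := by nlinarith
  obtain ⟨K, hK1, hK2, hK3⟩ := hC lam (L * Real.sqrt lam) hl hLam0
  set Lam0 := L * Real.sqrt lam with hLd
  set I := ∫⁻ x, ‖f x‖ₑ ^ 2 with hI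
  have hl0 : 0 < lam := by linarith
  have h2p : (1 : ℝ≥0∞) ≤ 2 ^ (p - 1) :=
    ENNReal.one_le_rpow (by norm_num) (by linarith)
  have hkey : ∀ k ∈ Finset.range (K + 1), ∫⁻ t in Icc (1 : ℝ) 2, ∫⁻ x in E,
      ‖MM (fun ξ => s t ξ * ((ck Lam0 k (ν ξ) : ℝ) : ℂ)) (P f) x‖ₑ ^ p ≤
      3 * 2 ^ (p - 1) * (B * I) := by
    intro k hk
    rw [Finset.mem_range] at hk
    by_cases hk0 : k = 0
    · subst hk0
      refine le_trans ?_ (le_mul_of_one_le_left' (show (1 : ℝ≥0∞) ≤ 3 * 2 ^ (p - 1) from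
        le_trans (by norm_num) (mul_le_mul' (show (1 : ℝ≥0∞) ≤ 3 by norm_num) h2p)))
      refine le_trans (le_of_eq ?_) h0
      unfold ck
      simp only [if_true]
    · set Lam := (2 : ℝ) ^ k * Lam0 with hLam
      have hk1 : 1 ≤ k := Nat.one_le_iff_ne_zero.2 hk0
      have hLl : Lam ≤ 4 * lam := hK2 k hk1 (by omega)
      have hLg : Lam0 ≤ Lam := by
        have : (1 : ℝ) ≤ 2 ^ k := one_le_pow₀ (by norm_num)
        nlinarith
      have hck : ∀ t : ℝ, (fun ξ => s t ξ * ((ck Lam0 k (ν ξ) : ℝ) : ℂ)) =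
          fun ξ => s t ξ * ((chi (ν ξ / Lam) : ℝ) : ℂ) := by
        intro t
        funext ξ
        unfold ck
        rw [if_neg hk0]
      simp only [hck]
      have hs' : Sym lam (fun t ξ => s t ξ * ((chi (ν ξ / Lam) : ℝ) : ℂ)) :=
        hs.mul (fun ξ => chi (ν ξ / Lam))
          ((Pool.Agent.H19.LS.chi_smooth.continuous.measurable).comp (hν.div_const _))
          (fun ξ => Pool.Agent.H19.LS.chi_abs _)
      set S : Set (EE d) := {x | Lam * ν x < L ^ 2} with hS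
      have hSm : MeasurableSet S := measurableSet_lt (hν.const_mul _) measurable_const
      set fb : EE d → ℂ := S.indicator f with hfb
      set fg : EE d → ℂ := Sᶜ.indicator f with hfg
      have hBb : BI A fb := ⟨hf.1.indicator hSm, hf.2.1.indicator hSm, fun x =>
        (norm_indicator_le_norm_self _ _).trans (hf.2.2 x)⟩
      have hBg : BI A fg := ⟨hf.1.indicator hSm.compl, hf.2.1.indicator hSm.compl, fun x =>
        (norm_indicator_le_norm_self _ _).trans (hf.2.2 x)⟩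
      have hsumf : ∀ x, f x = fb x + fg x := by
        intro x
        have := congrFun (Set.indicator_self_add_compl S f) x
        exact this.symm
      have hsubb : ∀ x, fb x ≠ 0 → f x ≠ 0 := by
        intro x hx h
        apply hx
        rw [hfb, Set.indicator_apply, h]
        split_ifs <;> rfl
      have hsubg : ∀ x, fg x ≠ 0 → f x ≠ 0 := by
        intro x hx h
        apply hx
        rw [hfg, Set.indicator_apply, h]
        split_ifs <;> rfl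
      have hIb : ∫⁻ x, ‖fb x‖ₑ ^ 2 ≤ I := by
        refine lintegral_mono fun x => ?_
        exact pow_le_pow_left' (enorm_indicator_le_enorm_self _ _) 2
      have hIg : ∫⁻ x, ‖fg x‖ₑ ^ 2 ≤ I := by
        refine lintegral_mono fun x => ?_
        exact pow_le_pow_left' (enorm_indicator_le_enorm_self _ _) 2
      have hPs := hPa fb fg hBb hBg hsumf
      have hE : E ⊆ (E ∩ {x | Lam * ν x ≤ L ^ 2}) ∪ {x | L ^ 2 ≤ Lam * ν x} := by
        intro x hx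
        rcases le_total (Lam * ν x) (L ^ 2) with h | h
        · exact Or.inl ⟨hx, h⟩
        · exact Or.inr h
      have h1 := split_bound hl0 hs' (P f) (P fb) (P fg) (hPi fb hBb) (hPi fg hBg) hPs
        (by linarith : (1 : ℝ) ≤ p) E _ _ hE
      refine h1.trans ?_
      have h2 := hb Lam fb hLg hLl hBb hsubb (by
        intro x hx
        have hxS : x ∈ S := Set.mem_of_indicator_ne_zero hx
        exact le_of_lt hxS)
      have h3 := hg1 Lam fg hLg hLl hBg hsubg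
      have h4 := hg2 Lam fg hLg hLl hBg (by
        intro x hx
        have hxS : x ∈ Sᶜ := Set.mem_of_indicator_ne_zero hx
        exact not_lt.1 hxS)
      have h2' := h2.trans (mul_le_mul' (le_refl B) hIb)
      have h3' := h3.trans (mul_le_mul' (le_refl B) hIg)
      have h4' := h4.trans (mul_le_mul' (le_refl B) hIg)
      refine (mul_le_mul' (le_refl ((2 : ℝ≥0∞) ^ (p - 1)))
        (add_le_add h2' (add_le_add h3' h4'))).trans (le_of_eq ?_)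
      ring
  have hmain := dyadic_bound hl0 (by linarith : 0 < Lam0) hK1 hs ν hν hν1 (P f) (hPi f hf)
    (by linarith : (1 : ℝ) ≤ p) E
  refine hmain.trans ?_
  calc ((K + 1 : ℕ) : ℝ≥0∞) ^ p * ∑ k ∈ Finset.range (K + 1),
        ∫⁻ t in Icc (1 : ℝ) 2, ∫⁻ x in E,
          ‖MM (fun ξ => s t ξ * ((ck Lam0 k (ν ξ) : ℝ) : ℂ)) (P f) x‖ₑ ^ p
      ≤ ((K + 1 : ℕ) : ℝ≥0∞) ^ p * ∑ _k ∈ Finset.range (K + 1),
          3 * 2 ^ (p - 1) * (B * I) := mul_le_mul' le_rfl (Finset.sum_le_sum hkey)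
    _ = ((K + 1 : ℕ) : ℝ≥0∞) ^ (p + 1) * (3 * 2 ^ (p - 1)) * B * I := by
        rw [Finset.sum_const, Finset.card_range, nsmul_eq_mul,
          ENNReal.rpow_add_of_nonneg _ _ (by linarith) zero_le_one, ENNReal.rpow_one]
        ring
    _ ≤ ENNReal.ofReal ((C : ℝ) * lam ^ η) * (3 * 2 ^ (p - 1)) * B * I := by
        apply mul_le_mul' (mul_le_mul' (mul_le_mul' _ le_rfl) le_rfl) le_rfl
        have h5 : ((K + 1 : ℕ) : ℝ≥0∞) = ENNReal.ofReal ((K : ℝ) + 1) := by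
          rw [← Nat.cast_succ, ENNReal.ofReal_natCast]
        rw [h5, ENNReal.ofReal_rpow_of_nonneg (by positivity) (by linarith)]
        exact ENNReal.ofReal_le_ofReal hK3
    _ = _ := by
        rw [ENNReal.ofReal_mul (NNReal.coe_nonneg C), ENNReal.ofReal_coe_nnreal]
        have h6 : ((C * (3 * 2 ^ (p - 1)) : ℝ≥0) : ℝ≥0∞) = (C : ℝ≥0∞) * (3 * 2 ^ (p - 1)) := by
          rw [ENNReal.coe_mul, ENNReal.coe_mul, ENNReal.coe_rpow_of_nonneg _ (by linarith)]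
          rfl
        rw [h6]
        ring

end Pool.Agent.H84.BR
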