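import Pool.Agent.H19.LS.STRONG

/-!
Marcinkiewicz interpolation for `MM (mT lam t)` composed with a positive operator (abstract form).
-/

set_option autoImplicit false

namespace Pool.Agent.H84.BR

open MeasureTheory Set Pool.Agent.H83.LS Pool.Agent.H19.LS FourierTransform
open scoped ENNReal NNReal ContDiff

/-- operators which behave like averages -/
structure GoodOp {d : ℕ} (P : (EE d → ℂ) → EE d → ℂ) : Prop where
  meas : ∀ f : EE d → ℂ, Measurable f → Measurable (P f)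
  sup : ∀ (f : EE d → ℂ) (A : ℝ), Measurable f → (∀ x, ‖f x‖ ≤ A) → ∀ x, ‖P f x‖ ≤ A
  l1 : ∀ f : EE d → ℂ, Measurable f → ∫⁻ x, ‖P f x‖ₑ ≤ ∫⁻ x, ‖f x‖ₑ
  ts : ∀ (g : ℤ → EE d → ℂ) (f : EE d → ℂ) (A : ℝ), (∀ l, Measurable (g l)) → Measurable f →
    (∀ x, ∑' l, ‖g l x‖ₑ ≤ ENNReal.ofReal A) → (∀ x, f x = ∑' l, g l x) →
    ∀ x, P f x = ∑' l, P (g l) x ∧ ∑' l, ‖P (g l) x‖ₑ ≤ ENNReal.ofReal A
  ball : ∀ (f : EE d → ℂ) (k : ℝ), Measurable f →
    P ((Metric.closedBall (0 : EE d) k).indicator f) =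
      (Metric.closedBall (0 : EE d) k).indicator (P f)

theorem GoodOp.comp {d : ℕ} {P Q : (EE d → ℂ) → EE d → ℂ} (hP : GoodOp P) (hQ : GoodOp Q) :
    GoodOp (fun f => P (Q f)) where
  meas f hf := hP.meas _ (hQ.meas f hf)
  sup f A hf hA := hP.sup _ A (hQ.meas f hf) (hQ.sup f A hf hA)
  l1 f hf := (hP.l1 _ (hQ.meas f hf)).trans (hQ.l1 f hf)
  ts g f A hg hf hA hfg := by
    have h1 := hQ.ts g f A hg hf hA hfg
    exact hP.ts (fun l => Q (g l)) (Q f) A (fun l => hQ.meas _ (hg l)) (hQ.meas f hf)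
      (fun x => (h1 x).2) (fun x => (h1 x).1)
  ball f k hf := by
    rw [hQ.ball f k hf, hP.ball (Q f) k (hQ.meas f hf)]

theorem GoodOp.int {d : ℕ} {P : (EE d → ℂ) → EE d → ℂ} (hP : GoodOp P) (f : EE d → ℂ)
    (hf : Measurable f) (hi : Integrable f) : Integrable (P f) :=
  ⟨(hP.meas f hf).aestronglyMeasurable, (hP.l1 f hf).trans_lt hi.2⟩

/-- the exponent -/
noncomputable def ExR (N : ℝ) (q : ℝ) : ℝ := max 0 (N * (q / 2 - 1) - 1)

/-- restricted type hypothesis -/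
def MALh (d : ℕ) (P : ℝ → (EE d → ℂ) → EE d → ℂ) : Prop :=
  ∀ p η : ℝ, 2 < p → p ≤ 2 + 2 / ((d : ℝ) - 1) → 0 < η →
  ∃ C : ℝ≥0, ∀ (lam L A : ℝ) (f : EE d → ℂ), 1 ≤ L → L ^ 2 ≤ lam → BCd A f →
  ∫⁻ t in Icc (1 : ℝ) 2, ∫⁻ x, ‖MM (mT lam t) (P L f) x‖ₑ ^ p ≤
    C * ENNReal.ofReal (lam ^ η * L ^ 2 * A ^ (p - 2)) * ∫⁻ x, ‖f x‖ₑ ^ 2

theorem restrictedP (d : ℕ) (hd : 3 ≤ d) (P : ℝ → (EE d → ℂ) → EE d → ℂ)
    (hP : ∀ L, 1 ≤ L → GoodOp (P L)) (hM : MALh d P) (hRADL : T_RADL) (hPLE : T_PLE)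
    (q η : ℝ) (hq : 2 < q) (hη : 0 < η) : ∃ C : ℝ, 0 ≤ C ∧ ∀ (lam L A : ℝ)
    (f : EE d → ℂ), 1 ≤ L → L ^ 2 ≤ lam → BCd A f →
    ∫⁻ p, ‖MM (mT lam p.1) (P L f) p.2‖ₑ ^ q ∂(stm d) ≤
      ENNReal.ofReal (C * (lam ^ (ExR ((d : ℝ) - 1) q + η) * L ^ 2 * A ^ (q - 2))) *
        ∫⁻ x, ‖f x‖ₑ ^ 2 := by
  set N : ℝ := (d : ℝ) - 1 with hN
  have hd3 : (3 : ℝ) ≤ d := by exact_mod_cast hd
  have hn0 : (0 : ℝ) < N := by rw [hN]; linarith
  have hmeas : ∀ (r lam : ℝ) (f : EE d → ℂ), 1 ≤ lam → Integrable f →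
      Measurable fun p : ℝ × EE d => ‖MM (mT lam p.1) f p.2‖ₑ ^ r := fun r lam f hl hf =>
    (MM_cont lam (by linarith) f hf).measurable.enorm.pow_const r
  rcases le_or_gt q (2 + 2 / N) with h | h
  · obtain ⟨C, hC⟩ := hM q η hq h hη
    refine ⟨C, C.2, fun lam L A f hL hL2 hf => ?_⟩
    have hl : 1 ≤ lam := by nlinarith
    have hA0 : 0 ≤ A := (norm_nonneg _).trans (hf.2.1 0)
    have hPi := (hP L hL).int f hf.1 (BCd_int A f hf)
    rw [← st_eq _ (hmeas q lam _ hl hPi)]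
    refine (hC lam L A f hL hL2 hf).trans ?_
    apply mul_le_mul' _ le_rfl
    rw [← ENNReal.ofReal_coe_nnreal, ← ENNReal.ofReal_mul (NNReal.coe_nonneg C)]
    apply ENNReal.ofReal_le_ofReal
    have h1 : lam ^ η ≤ lam ^ (ExR N q + η) := by
      apply Real.rpow_le_rpow_of_exponent_le hl
      have : 0 ≤ ExR N q := le_max_left _ _
      linarith
    have h2 : (0 : ℝ) ≤ C := C.2
    have h3 : 0 ≤ A ^ (q - 2) := Real.rpow_nonneg hA0 _
    exact mul_le_mul_of_nonneg_left (mul_le_mul_of_nonneg_right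
      (mul_le_mul_of_nonneg_right h1 (sq_nonneg L)) h3) h2
  · set r : ℝ := 2 + 2 / N with hr
    have hr2 : 2 < r := by
      have : 0 < 2 / N := by positivity
      linarith
    obtain ⟨C, hC⟩ := hM r η hr2 le_rfl hη
    obtain ⟨M, C1, hC1⟩ := hRADL d (by omega)
    obtain ⟨B, hB0, hB⟩ := chi_CB M
    refine ⟨(|C1 * B| * 3 ^ (N / 2)) ^ (q - r) * C, by
      have : (0 : ℝ) ≤ C := C.2
      positivity, fun lam L A f hL hL2 hf => ?_⟩
    have hl : 1 ≤ lam := by nlinarith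
    have hA0 : 0 ≤ A := (norm_nonneg _).trans (hf.2.1 0)
    have hl0 : 0 < lam := by linarith
    have hfi := BCd_int A f hf
    have hPi := (hP L hL).int f hf.1 hfi
    have hPm := (hP L hL).meas f hf.1
    have hPs := (hP L hL).sup f A hf.1 hf.2.1
    -- the sup bound
    have hsup : ∀ t ∈ Icc (1 : ℝ) 2, ∀ x, ‖MM (mT lam t) (P L f) x‖ₑ ≤
        ENNReal.ofReal (|C1 * B| * 3 ^ (N / 2) * lam ^ (N / 2) * A) := by
      intro t ht x
      refine (MM_sup lam hl0 hPLE t (P L f) hPi hPm A hPs x).trans ?_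
      rw [ENNReal.ofReal_mul (by positivity)]
      apply mul_le_mul' _ le_rfl
      have h1 := (hC1 (fun σ => ((chi σ : ℝ) : ℂ)) B lam t hB hl0 (by linarith [ht.1])).1
      refine h1.trans (ENNReal.ofReal_le_ofReal ?_)
      have h2 : (1 + lam * t) ^ (((d : ℝ) - 1) / 2) ≤ 3 ^ (N / 2) *
          lam ^ (N / 2) := by
        rw [← Real.mul_rpow (by norm_num) hl0.le]
        apply Real.rpow_le_rpow
        · have := ht.1
          positivity
        · nlinarith [ht.2]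
        · positivity
      calc C1 * B * (1 + lam * t) ^ (((d : ℝ) - 1) / 2)
          ≤ |C1 * B| * (1 + lam * t) ^ (((d : ℝ) - 1) / 2) := by
            apply mul_le_mul_of_nonneg_right (le_abs_self _)
            apply Real.rpow_nonneg
            have := ht.1
            positivity
        _ ≤ |C1 * B| * (3 ^ (N / 2) * lam ^ (N / 2)) :=
            mul_le_mul_of_nonneg_left h2 (abs_nonneg _)
        _ = _ := by ring
    set S : ℝ := |C1 * B| * 3 ^ (N / 2) * lam ^ (N / 2) * A with hS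
    have hS0 : 0 ≤ S := by positivity
    have hqr : 0 ≤ q - r := by linarith
    have hpt : ∀ᵐ p ∂(stm d), ‖MM (mT lam p.1) (P L f) p.2‖ₑ ^ q ≤
        ENNReal.ofReal (S ^ (q - r)) * ‖MM (mT lam p.1) (P L f) p.2‖ₑ ^ r := by
      have h1 : ∀ᵐ p ∂(stm d), p.1 ∈ Icc (1 : ℝ) 2 := by
        have := (Measure.quasiMeasurePreserving_fst (μ := volume.restrict (Icc (1 : ℝ) 2))
          (ν := (volume : Measure (EE d)))).ae (ae_restrict_mem measurableSet_Icc)
        exact this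
      filter_upwards [h1] with p hp
      have h2 : ‖MM (mT lam p.1) (P L f) p.2‖ₑ ^ q = ‖MM (mT lam p.1) (P L f) p.2‖ₑ ^ (q - r) *
          ‖MM (mT lam p.1) (P L f) p.2‖ₑ ^ r := by
        rw [← ENNReal.rpow_add_of_nonneg _ _ hqr (by linarith)]
        congr 1
        ring
      rw [h2, ← ENNReal.ofReal_rpow_of_nonneg hS0 hqr]
      apply mul_le_mul' _ le_rfl
      exact ENNReal.rpow_le_rpow (hsup p.1 hp p.2) hqr
    calc ∫⁻ p, ‖MM (mT lam p.1) (P L f) p.2‖ₑ ^ q ∂(stm d)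
        ≤ ∫⁻ p, ENNReal.ofReal (S ^ (q - r)) * ‖MM (mT lam p.1) (P L f) p.2‖ₑ ^ r ∂(stm d) :=
          lintegral_mono_ae hpt
      _ = ENNReal.ofReal (S ^ (q - r)) *
          ∫⁻ p, ‖MM (mT lam p.1) (P L f) p.2‖ₑ ^ r ∂(stm d) :=
          lintegral_const_mul' _ _ ENNReal.ofReal_ne_top
      _ ≤ ENNReal.ofReal (S ^ (q - r)) * (C * ENNReal.ofReal (lam ^ η * L ^ 2 * A ^ (r - 2)) *
          ∫⁻ x, ‖f x‖ₑ ^ 2) := by
          apply mul_le_mul' le_rfl
          rw [← st_eq _ (hmeas r lam _ hl hPi)]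
          exact hC lam L A f hL hL2 hf
      _ = ENNReal.ofReal (S ^ (q - r) * (C * (lam ^ η * L ^ 2 * A ^ (r - 2)))) *
          ∫⁻ x, ‖f x‖ₑ ^ 2 := by
          have e0 : ENNReal.ofReal (S ^ (q - r) * (C * (lam ^ η * L ^ 2 * A ^ (r - 2)))) =
              ENNReal.ofReal (S ^ (q - r)) *
                (C * ENNReal.ofReal (lam ^ η * L ^ 2 * A ^ (r - 2))) := by
            rw [ENNReal.ofReal_mul (Real.rpow_nonneg hS0 _),
              ENNReal.ofReal_mul (NNReal.coe_nonneg C), ENNReal.ofReal_coe_nnreal]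
          rw [e0, ← mul_assoc]
      _ ≤ _ := by
          apply mul_le_mul' _ le_rfl
          apply ENNReal.ofReal_le_ofReal
          have e1 : S ^ (q - r) = (|C1 * B| * 3 ^ (N / 2)) ^ (q - r) *
              (lam ^ (N / 2)) ^ (q - r) * A ^ (q - r) := by
            rw [hS, Real.mul_rpow (by positivity) hA0, Real.mul_rpow (by positivity) (by positivity)]
          have e2 : (lam ^ (N / 2)) ^ (q - r) = lam ^ (N * (q / 2 - 1) - 1) := by
            rw [← Real.rpow_mul hl0.le]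
            congr 1
            rw [hr]
            field_simp
            ring
          have e3 : A ^ (q - r) * A ^ (r - 2) = A ^ (q - 2) := by
            rw [← Real.rpow_add_of_nonneg hA0 hqr (by linarith)]
            congr 1
            ring
          have e4 : lam ^ (N * (q / 2 - 1) - 1) * lam ^ η ≤ lam ^ (ExR N q + η) := by
            rw [← Real.rpow_add hl0]
            apply Real.rpow_le_rpow_of_exponent_le hl
            have : N * (q / 2 - 1) - 1 ≤ ExR N q := le_max_right _ _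
            linarith
          have hCn : (0 : ℝ) ≤ C := C.2
          calc S ^ (q - r) * (C * (lam ^ η * L ^ 2 * A ^ (r - 2)))
              = (|C1 * B| * 3 ^ (N / 2)) ^ (q - r) * C *
                (lam ^ (N * (q / 2 - 1) - 1) * lam ^ η) * L ^ 2 *
                (A ^ (q - r) * A ^ (r - 2)) := by
                rw [e1, e2]
                ring
            _ ≤ (|C1 * B| * 3 ^ (N / 2)) ^ (q - r) * C * lam ^ (ExR N q + η) * L ^ 2 *
                A ^ (q - 2) := by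
                rw [e3]
                gcongr
            _ = _ := by ring

theorem MM_tsumP {d : ℕ} (lam : ℝ) (hl : 0 < lam) (hPLE : T_PLE) (t A : ℝ)
    (P : (EE d → ℂ) → EE d → ℂ) (hP : GoodOp P) (f : EE d → ℂ)
    (hf : BCd A f) (x : EE d) :
    ‖MM (mT lam t) (P f) x‖ₑ ≤ ∑' l : ℤ, ‖MM (mT lam t) (P (pc f l)) x‖ₑ := by
  have hfi := BCd_int A f hf
  have hpi : ∀ l, Integrable (pc f l) := fun l => BCd_int _ _ (pc_BCd A f hf l)
  have hpm : ∀ l, Measurable (pc f l) := fun l => (pc_BCd A f hf l).1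
  have hsum : ∀ y, ∑' l : ℤ, ‖pc f l y‖ₑ ≤ ENNReal.ofReal A := by
    intro y
    rw [pc_sum f y (fun z => ‖z‖ₑ) (by simp), ← ofReal_norm]
    exact ENNReal.ofReal_le_ofReal (hf.2.1 y)
  have hts := hP.ts (pc f) f A hpm hf.1 hsum (fun y => (pc_sum f y (fun z => z) rfl).symm)
  have e1 : MM (mT lam t) (P f) x = ∑' l : ℤ, MM (mT lam t) (P (pc f l)) x := by
    rw [MM_conv lam hl hPLE t (P f) (hP.int f hf.1 hfi) (hP.meas f hf.1)
      ⟨A, hP.sup f A hf.1 hf.2.1⟩ x]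
    have e2 : ∀ l, MM (mT lam t) (P (pc f l)) x = ∫ y, MK (mT lam t) (x - y) * P (pc f l) y :=
      fun l => MM_conv lam hl hPLE t _ (hP.int _ (hpm l) (hpi l)) (hP.meas _ (hpm l))
        ⟨_, hP.sup _ _ (hpm l) (pc_BCd A f hf l).2.1⟩ x
    simp_rw [e2]
    rw [← integral_tsum]
    · refine integral_congr_ae (Filter.Eventually.of_forall fun y => ?_)
      show MK (mT lam t) (x - y) * P f y = ∑' l : ℤ, MK (mT lam t) (x - y) * P (pc f l) y
      rw [tsum_mul_left, (hts y).1]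
    · intro l
      exact (((MK_cont lam hl t).comp (continuous_const.sub continuous_id)).aestronglyMeasurable).mul
        (hP.meas _ (hpm l)).aestronglyMeasurable
    · set c : ℝ≥0∞ := ENNReal.ofReal (∫ ξ : EE d, ‖mT lam t ξ‖) with hc
      have h1 : ∀ l : ℤ, ∫⁻ y, ‖MK (mT lam t) (x - y) * P (pc f l) y‖ₑ ≤
          c * ∫⁻ y, ‖pc f l y‖ₑ := by
        intro l
        calc ∫⁻ y, ‖MK (mT lam t) (x - y) * P (pc f l) y‖ₑ
            ≤ ∫⁻ y, c * ‖P (pc f l) y‖ₑ := by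
              refine lintegral_mono fun y => ?_
              show ‖MK (mT lam t) (x - y) * P (pc f l) y‖ₑ ≤ c * ‖P (pc f l) y‖ₑ
              rw [enorm_mul]
              apply mul_le_mul' _ le_rfl
              rw [← ofReal_norm, hc]
              exact ENNReal.ofReal_le_ofReal (MK_le lam hl t _)
          _ = c * ∫⁻ y, ‖P (pc f l) y‖ₑ := lintegral_const_mul' _ _ ENNReal.ofReal_ne_top
          _ ≤ _ := mul_le_mul' le_rfl (hP.l1 _ (hpm l))
      have h2 : ∑' l : ℤ, ∫⁻ y, ‖pc f l y‖ₑ = ∫⁻ y, ‖f y‖ₑ := by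
        rw [← lintegral_tsum fun l => (hpm l).enorm.aemeasurable]
        exact lintegral_congr fun y => pc_sum f y (fun z => ‖z‖ₑ) (by simp)
      refine ne_top_of_le_ne_top ?_ (ENNReal.tsum_le_tsum h1)
      rw [ENNReal.tsum_mul_left, h2]
      exact ENNReal.mul_ne_top ENNReal.ofReal_ne_top hfi.2.ne
  rw [e1]
  exact enorm_tsum_le_tsum_enorm

/-- strong type for bounded functions with compact support -/
theorem strong_BCdP (hMARC : T_MARC) (hRADL : T_RADL) (hPLE : T_PLE) (d : ℕ) (hd : 3 ≤ d)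
    (P : ℝ → (EE d → ℂ) → EE d → ℂ) (hP : ∀ L, 1 ≤ L → GoodOp (P L)) (hM : MALh d P)
    (p η : ℝ) (hp : 2 + 2 / ((d : ℝ) - 1) ≤ p) (hη : 0 < η) : ∃ C : ℝ≥0, ∀ (lam L A : ℝ)
    (f : EE d → ℂ), 1 ≤ L → L ^ 2 ≤ lam → BCd A f →
    ∫⁻ q, ‖MM (mT lam q.1) (P L f) q.2‖ₑ ^ p ∂(stm d) ≤
      C * ENNReal.ofReal (lam ^ (((d : ℝ) - 1) * (p / 2 - 1) - 1 + η) * L ^ 2) *
        ∫⁻ x, ‖f x‖ₑ ^ p := by
  set N : ℝ := (d : ℝ) - 1 with hN
  have hd3 : (3 : ℝ) ≤ d := by exact_mod_cast hd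
  have hn0 : (0 : ℝ) < N := by rw [hN]; linarith
  have h2n : 0 < 2 / N := by positivity
  have hp2 : 2 < p := by linarith
  have hE : 0 ≤ N * (p / 2 - 1) - 1 := by
    have h1 : 1 / N ≤ p / 2 - 1 := by
      have : 2 / N = 2 * (1 / N) := by ring
      rw [this] at hp
      linarith
    have h2 : N * (1 / N) = 1 := by field_simp
    nlinarith
  set q₁ := (2 + p) / 2 with hq₁
  set q₂ := p + η / N with hq₂
  have hηn : 0 < η / N := by positivity
  obtain ⟨C₁, hC₁0, hC₁⟩ := restrictedP d hd P hP hM hRADL hPLE q₁ (η / 2) (by linarith)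
    (by positivity)
  obtain ⟨C₂, hC₂0, hC₂⟩ := restrictedP d hd P hP hM hRADL hPLE q₂ (η / 2) (by linarith)
    (by positivity)
  obtain ⟨C, hC⟩ := hMARC q₁ p q₂ (by linarith) (by linarith) (by linarith)
  set C' : ℝ := C₁ * 2 ^ q₁ + C₂ * 2 ^ q₂ with hC'
  have hC'0 : 0 ≤ C' := by positivity
  refine ⟨C * C'.toNNReal, fun lam L A f hL hL2 hf => ?_⟩
  have hl : 1 ≤ lam := by nlinarith
  have hl0 : 0 < lam := by linarith
  have hEx1 : ExR N q₁ + η / 2 ≤ N * (p / 2 - 1) - 1 + η := by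
    have : ExR N q₁ ≤ N * (p / 2 - 1) - 1 := by
      apply max_le hE
      have : q₁ / 2 - 1 ≤ p / 2 - 1 := by linarith
      nlinarith
    linarith
  have hEx2 : ExR N q₂ + η / 2 ≤ N * (p / 2 - 1) - 1 + η := by
    have : ExR N q₂ ≤ N * (p / 2 - 1) - 1 + η / 2 := by
      apply max_le (by linarith)
      have h1 : N * (q₂ / 2 - 1) = N * (p / 2 - 1) + η / 2 := by
        rw [hq₂]
        field_simp
        ring
      linarith
    linarith
  set B : ℝ≥0∞ := ENNReal.ofReal (C' * (lam ^ (N * (p / 2 - 1) - 1 + η) * L ^ 2)) with hB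
  have hgen : ∀ (q Cq : ℝ), 2 < q → 0 ≤ Cq → Cq * 2 ^ q ≤ C' →
      ExR N q + η / 2 ≤ N * (p / 2 - 1) - 1 + η → (∀ (lam L A : ℝ)
      (f : EE d → ℂ), 1 ≤ L → L ^ 2 ≤ lam → BCd A f →
      ∫⁻ p, ‖MM (mT lam p.1) (P L f) p.2‖ₑ ^ q ∂(stm d) ≤
      ENNReal.ofReal (Cq * (lam ^ (ExR N q + η / 2) * L ^ 2 * A ^ (q - 2))) *
        ∫⁻ x, ‖f x‖ₑ ^ 2) →
      ∀ l : ℤ, ∫⁻ y, ‖MM (mT lam y.1) (P L (pc f l)) y.2‖ₑ ^ q ∂(stm d) ≤
        B * ENNReal.ofReal ((2 : ℝ) ^ ((l : ℝ) * q)) * volume (lev f l) := by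
    intro q Cq hq hCq hCC hEx hR l
    refine (hR lam L _ (pc f l) hL hL2 (pc_BCd A f hf l)).trans ?_
    refine (mul_le_mul' le_rfl (pc_l2 f hf.1 l)).trans ?_
    rw [← mul_assoc]
    apply mul_le_mul' _ le_rfl
    have hpos : (0 : ℝ) < (2 : ℝ) ^ ((l : ℝ) + 1) := by positivity
    rw [← ENNReal.ofReal_mul (by positivity), hB, ← ENNReal.ofReal_mul (by positivity)]
    apply ENNReal.ofReal_le_ofReal
    have e1 : ((2 : ℝ) ^ ((l : ℝ) + 1)) ^ (q - 2) * ((2 : ℝ) ^ ((l : ℝ) + 1)) ^ (2 : ℝ)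
        = (2 : ℝ) ^ q * (2 : ℝ) ^ ((l : ℝ) * q) := by
      rw [← Real.rpow_add hpos, ← Real.rpow_mul (by norm_num), ← Real.rpow_add (by norm_num)]
      congr 1
      ring
    have e2 : lam ^ (ExR N q + η / 2) ≤ lam ^ (N * (p / 2 - 1) - 1 + η) :=
      Real.rpow_le_rpow_of_exponent_le hl hEx
    calc Cq * (lam ^ (ExR N q + η / 2) * L ^ 2 * ((2 : ℝ) ^ ((l : ℝ) + 1)) ^ (q - 2)) *
          ((2 : ℝ) ^ ((l : ℝ) + 1)) ^ (2 : ℝ)
        = (Cq * 2 ^ q) * (lam ^ (ExR N q + η / 2) * L ^ 2) * (2 : ℝ) ^ ((l : ℝ) * q) := by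
          rw [mul_assoc Cq, mul_assoc (lam ^ _ * L ^ 2), e1]
          ring
      _ ≤ _ := by gcongr
  have hgm : ∀ l : ℤ, Measurable fun y : ℝ × EE d => ‖MM (mT lam y.1) (P L (pc f l)) y.2‖ₑ :=
    fun l => (MM_cont lam hl0 _ ((hP L hL).int _ (pc_BCd A f hf l).1
      (BCd_int _ _ (pc_BCd A f hf l)))).measurable.enorm
  have h1 := hC (ℝ × EE d) (stm d) (fun l y => ‖MM (mT lam y.1) (P L (pc f l)) y.2‖ₑ)
    (fun l => volume (lev f l)) B hgm
    (hgen q₁ C₁ (by linarith) hC₁0 (by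
      have : 0 ≤ C₂ * 2 ^ q₂ := by positivity
      linarith) hEx1 hC₁)
    (hgen q₂ C₂ (by linarith) hC₂0 (by
      have : 0 ≤ C₁ * 2 ^ q₁ := by positivity
      linarith) hEx2 hC₂)
  calc ∫⁻ q, ‖MM (mT lam q.1) (P L f) q.2‖ₑ ^ p ∂(stm d)
      ≤ ∫⁻ q, (∑' l : ℤ, ‖MM (mT lam q.1) (P L (pc f l)) q.2‖ₑ) ^ p ∂(stm d) := by
        refine lintegral_mono fun q => ?_
        exact ENNReal.rpow_le_rpow (MM_tsumP lam hl0 hPLE q.1 A (P L) (hP L hL) f hf q.2)
          (by linarith)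
    _ ≤ _ := h1
    _ ≤ C * B * ∫⁻ x, ‖f x‖ₑ ^ p := mul_le_mul' le_rfl (lev_sum f hf.1 p (by linarith))
    _ = _ := by
        rw [hB, ENNReal.ofReal_mul hC'0]
        push_cast
        rw [← mul_assoc]
        rfl

/-- strong type in abstract form -/
theorem strongP (hMARC : T_MARC) (hRADL : T_RADL) (hPLE : T_PLE) (d : ℕ) (hd : 3 ≤ d)
    (P : ℝ → (EE d → ℂ) → EE d → ℂ) (hP : ∀ L, 1 ≤ L → GoodOp (P L)) (hM : MALh d P)
    (p η : ℝ) (hp : 2 + 2 / ((d : ℝ) - 1) ≤ p) (hη : 0 < η) :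
    ∃ C : ℝ≥0, ∀ (lam L : ℝ) (f : EE d → ℂ), 1 ≤ L → L ^ 2 ≤ lam → Measurable f →
    Integrable f → (∃ A : ℝ, ∀ x, ‖f x‖ ≤ A) →
    ∫⁻ t in Icc (1 : ℝ) 2, ∫⁻ x, ‖MM (mT lam t) (P L f) x‖ₑ ^ p ≤
      C * ENNReal.ofReal (lam ^ (((d : ℝ) - 1) * (p / 2 - 1) - 1 + η) * L ^ 2) *
        ∫⁻ x, ‖f x‖ₑ ^ p := by
  obtain ⟨C, hC⟩ := strong_BCdP hMARC hRADL hPLE d hd P hP hM p η hp hη
  refine ⟨C, fun lam L f hL hL2 hm hfi ⟨A, hA⟩ => ?_⟩
  have hd3 : (3 : ℝ) ≤ d := by exact_mod_cast hd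
  have hl : 1 ≤ lam := by nlinarith
  have hl0 : 0 < lam := by linarith
  have hp0 : 0 ≤ p := by
    have h2n : 0 < 2 / ((d : ℝ) - 1) := by
      apply div_pos (by norm_num)
      linarith
    linarith
  have hG := hP L hL
  set g : EE d → ℂ := P L f with hg
  have hgm : Measurable g := hG.meas f hm
  have hgi : Integrable g := hG.int f hm hfi
  have hgA : ∀ x, ‖g x‖ ≤ A := hG.sup f A hm hA
  set fk : ℕ → EE d → ℂ := fun k => (Metric.closedBall (0 : EE d) k).indicator f with hfk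
  have hmk : ∀ k, Measurable (fk k) := fun k => hm.indicator measurableSet_closedBall
  have hle : ∀ k x, ‖fk k x‖ ≤ ‖f x‖ := fun k x => norm_indicator_le_norm_self f x
  have hBC : ∀ k, BCd A (fk k) := by
    intro k
    refine ⟨hmk k, fun x => (hle k x).trans (hA x), k, fun x hx => ?_⟩
    rw [hfk]
    simp only
    rw [indicator_of_notMem]
    rw [mem_closedBall_zero_iff, not_le]
    exact hx
  have hPk : ∀ k : ℕ, P L (fk k) = (Metric.closedBall (0 : EE d) k).indicator g := fun k =>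
    hG.ball f k hm
  have hmeas : ∀ g : EE d → ℂ, Integrable g →
      Measurable fun q : ℝ × EE d => ‖MM (mT lam q.1) g q.2‖ₑ ^ p := fun g hg =>
    (MM_cont lam hl0 g hg).measurable.enorm.pow_const p
  have hconv : ∀ q : ℝ × EE d, Filter.Tendsto
      (fun k => ‖MM (mT lam q.1) (P L (fk k)) q.2‖ₑ ^ p) Filter.atTop
      (nhds (‖MM (mT lam q.1) g q.2‖ₑ ^ p)) := by
    intro q
    apply Filter.Tendsto.ennrpow_const
    apply Filter.Tendsto.enorm
    rw [MM_conv lam hl0 hPLE q.1 g hgi hgm ⟨A, hgA⟩ q.2]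
    have hgkm : ∀ k : ℕ, Measurable ((Metric.closedBall (0 : EE d) k).indicator g) :=
      fun k => hgm.indicator measurableSet_closedBall
    have hgle : ∀ (k : ℕ) x, ‖(Metric.closedBall (0 : EE d) k).indicator g x‖ ≤ ‖g x‖ :=
      fun k x => norm_indicator_le_norm_self g x
    have e2 : ∀ k : ℕ, MM (mT lam q.1) (P L (fk k)) q.2 =
        ∫ y, MK (mT lam q.1) (q.2 - y) * (Metric.closedBall (0 : EE d) k).indicator g y := by
      intro k
      rw [hPk k]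
      exact MM_conv lam hl0 hPLE q.1 _ (hgi.indicator measurableSet_closedBall) (hgkm k)
        ⟨A, fun x => (hgle k x).trans (hgA x)⟩ q.2
    simp_rw [e2]
    have hKm : AEStronglyMeasurable (fun y : EE d => MK (mT lam q.1) (q.2 - y)) :=
      ((MK_cont lam hl0 q.1).comp (continuous_const.sub continuous_id)).aestronglyMeasurable
    apply tendsto_integral_of_dominated_convergence
      (fun y => ‖MK (mT lam q.1) (q.2 - y) * g y‖)
    · intro k
      exact hKm.mul (hgkm k).aestronglyMeasurable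
    · exact (hgi.bdd_mul (c := ∫ ξ : EE d, ‖mT lam q.1 ξ‖) hKm
        (Filter.Eventually.of_forall fun y => MK_le lam hl0 q.1 _)).norm
    · intro k
      refine Filter.Eventually.of_forall fun y => ?_
      rw [norm_mul, norm_mul]
      exact mul_le_mul_of_nonneg_left (hgle k y) (norm_nonneg _)
    · refine Filter.Eventually.of_forall fun y => ?_
      apply Filter.Tendsto.const_mul
      obtain ⟨k0, hk0⟩ := exists_nat_ge ‖y‖
      refine tendsto_const_nhds.congr' ?_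
      filter_upwards [Filter.eventually_ge_atTop k0] with k hk
      rw [indicator_of_mem]
      rw [mem_closedBall_zero_iff]
      exact hk0.trans (by exact_mod_cast hk)
  rw [st_eq (fun q => ‖MM (mT lam q.1) g q.2‖ₑ ^ p) (hmeas g hgi)]
  calc ∫⁻ q, ‖MM (mT lam q.1) g q.2‖ₑ ^ p ∂(stm d)
      = ∫⁻ q, Filter.liminf (fun k => ‖MM (mT lam q.1) (P L (fk k)) q.2‖ₑ ^ p) Filter.atTop
          ∂(stm d) := by
        refine lintegral_congr fun q => ?_
        exact (hconv q).liminf_eq.symm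
    _ ≤ Filter.liminf (fun k => ∫⁻ q, ‖MM (mT lam q.1) (P L (fk k)) q.2‖ₑ ^ p ∂(stm d))
          Filter.atTop :=
        lintegral_liminf_le fun k => hmeas _ (hG.int _ (hmk k) (BCd_int A _ (hBC k)))
    _ ≤ _ := by
        apply Filter.liminf_le_of_frequently_le'
        apply Filter.Frequently.of_forall
        intro k
        refine (hC lam L A (fk k) hL hL2 (hBC k)).trans ?_
        apply mul_le_mul' le_rfl
        refine lintegral_mono fun x => ?_
        apply ENNReal.rpow_le_rpow _ hp0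
        rw [← ofReal_norm, ← ofReal_norm]
        exact ENNReal.ofReal_le_ofReal (hle k x)

end Pool.Agent.H84.BR
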