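import Pool.Agent.H83.LS.Targets4

/-!
Final statements (MP_ee74d2_an, a fraction `2/p` of a derivative along the rotations of two
complementary coordinate subspaces).
-/

set_option autoImplicit false

namespace Pool.Agent.H84.BR

open MeasureTheory Set SchwartzMap
open scoped NNReal ENNReal
open Pool.Agent.H83.LS

/-- the conjectured norm of the data `f, g`: `‖f‖_{L^p_{s_p-σ}} + ‖g‖_{L^p_{s_p-1-σ}}` with
`s_p = (d-1)/2 - (d-1)/p` -/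
noncomputable def dat {d : ℕ} (p σ : ℝ) (f g : EE d → ℂ) : ℝ≥0∞ :=
  eLpNorm (besS (((d : ℝ) - 1) / 2 - ((d : ℝ) - 1) / p - σ) f) (ENNReal.ofReal p) volume +
    eLpNorm (besS (((d : ℝ) - 1) / 2 - ((d : ℝ) - 1) / p - 1 - σ) g) (ENNReal.ofReal p) volume

/-- END1 (stage 1): rotations about the last coordinate axis -/
def T_END1 : Prop := ∀ (n : ℕ) (p σ : ℝ), 2 ≤ n → 2 * ((n : ℝ) + 1) / n ≤ p → σ < 1 / p →
  ∃ C : ℝ≥0, ∀ (u₀ u₁ : 𝓢(EE (n + 1), ℂ)) (N₀ N₁ : ℝ≥0∞), N₀ ≤ N₁ → dat p σ u₀ u₁ ≤ N₀ →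
  (∀ i j : Fin n, dat p σ (rot i j u₀) (rot i j u₁) ≤ N₁) →
  (∫⁻ t in Icc (1 : ℝ) 2, eLpNorm (fun x => cosS u₀ t x + sinS u₁ t x) (ENNReal.ofReal p)
    volume ^ p) ^ (1 / p) ≤ (C : ℝ≥0∞) * (N₀ ^ (1 - 2 / p) * N₁ ^ (2 / p))

/-- the generator `x_i ∂_j - x_j ∂_i` of the rotations in the plane of the coordinates `i, j` -/
noncomputable def rotd {d : ℕ} (i j : Fin d) (f : EE d → ℂ) (x : EE d) : ℂ :=
  ((x i : ℝ) : ℂ) * fderiv ℝ f x (EuclideanSpace.single j 1) -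
    ((x j : ℝ) : ℂ) * fderiv ℝ f x (EuclideanSpace.single i 1)

/-- END (stage 2): rotations of the first `a` and of the last `b` coordinates -/
def T_END : Prop := ∀ (a b : ℕ) (p σ : ℝ), 2 ≤ a → 1 ≤ b →
  2 * ((a : ℝ) + b) / (a + b - 1) ≤ p → σ < 1 / p →
  ∃ C : ℝ≥0, ∀ (u₀ u₁ : 𝓢(EE (a + b), ℂ)) (N₀ N₁ : ℝ≥0∞), N₀ ≤ N₁ → dat p σ u₀ u₁ ≤ N₀ →
  (∀ i j : Fin (a + b), (i.val < a ↔ j.val < a) → dat p σ (rotd i j u₀) (rotd i j u₁) ≤ N₁) →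
  (∫⁻ t in Icc (1 : ℝ) 2, eLpNorm (fun x => cosS u₀ t x + sinS u₁ t x) (ENNReal.ofReal p)
    volume ^ p) ^ (1 / p) ≤ (C : ℝ≥0∞) * (N₀ ^ (1 - 2 / p) * N₁ ^ (2 / p))

end Pool.Agent.H84.BR
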