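import Mathlib

/-!
Definitions for the statement of `MP_ee74d2_an.AngularDerivative`.
-/

set_option autoImplicit false

namespace Pool.Agent.H84.BR.CD

open MeasureTheory Set FourierTransform
open scoped ENNReal NNReal

/-- `ℝ^d` -/
abbrev EE (d : ℕ) := EuclideanSpace ℝ (Fin d)

/-- `cos(t√-Δ) f` (Fourier transforms with the kernels `e^{∓2πi x·ξ}`) -/
noncomputable def cosS {d : ℕ} (f : EE d → ℂ) (t : ℝ) (x : EE d) : ℂ :=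
  𝓕⁻ (fun ξ : EE d => ((Real.cos (2 * Real.pi * t * ‖ξ‖) : ℝ) : ℂ) * 𝓕 f ξ) x

/-- `(sin(t√-Δ)/√-Δ) f` -/
noncomputable def sinS {d : ℕ} (f : EE d → ℂ) (t : ℝ) (x : EE d) : ℂ :=
  𝓕⁻ (fun ξ : EE d => ((Real.sin (2 * Real.pi * t * ‖ξ‖) / (2 * Real.pi * ‖ξ‖) : ℝ) : ℂ) *
    𝓕 f ξ) x

/-- `(∫_1^2 ‖u(·,t)‖_p^p dt)^(1/p)` for the solution `u(·,t) = cos(t√-Δ)u₀ + sin(t√-Δ)/√-Δ u₁` of
the wave equation -/
noncomputable def solNorm {d : ℕ} (p : ℝ) (u₀ u₁ : EE d → ℂ) : ℝ≥0∞ :=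
  (∫⁻ t in Icc (1 : ℝ) 2, eLpNorm (fun x => cosS u₀ t x + sinS u₁ t x) (ENNReal.ofReal p)
    volume ^ p) ^ (1 / p)

/-- `(I - Δ)^{s/2} f` -/
noncomputable def besS {d : ℕ} (s : ℝ) (f : EE d → ℂ) (x : EE d) : ℂ :=
  𝓕⁻ (fun ξ : EE d => (((1 + 4 * Real.pi ^ 2 * ‖ξ‖ ^ 2) ^ (s / 2) : ℝ) : ℂ) * 𝓕 f ξ) x

/-- the norm of `L^p_s`: `‖(I-Δ)^{s/2} f‖_p` -/
noncomputable def sobNorm {d : ℕ} (p s : ℝ) (f : EE d → ℂ) : ℝ≥0∞ :=
  eLpNorm (besS s f) (ENNReal.ofReal p) volume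

/-- `N`: the conjectured norm `‖u₀‖_{L^p_{s_p-σ}} + ‖u₁‖_{L^p_{s_p-1-σ}}` of the data, with
`s_p = (d-1)(1/2-1/p)` -/
noncomputable def datN {d : ℕ} (p σ : ℝ) (u₀ u₁ : EE d → ℂ) : ℝ≥0∞ :=
  sobNorm p (((d : ℝ) - 1) * (1 / 2 - 1 / p) - σ) u₀ +
    sobNorm p (((d : ℝ) - 1) * (1 / 2 - 1 / p) - 1 - σ) u₁

/-- the derivative `x_i ∂_j f - x_j ∂_i f` along the rotations in the plane of the coordinates
`i, j` -/
noncomputable def rotd {d : ℕ} (i j : Fin d) (f : EE d → ℂ) (x : EE d) : ℂ :=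
  ((x i : ℝ) : ℂ) * fderiv ℝ f x (EuclideanSpace.single j 1) -
    ((x j : ℝ) : ℂ) * fderiv ℝ f x (EuclideanSpace.single i 1)

/-- `R`: the supremum of the conjectured norms of the derivatives of the data along the rotations
in the planes of the coordinates `i, j`, both among the first `a` or both among the last ones -/
noncomputable def angR {d : ℕ} (a : ℕ) (p σ : ℝ) (u₀ u₁ : EE d → ℂ) : ℝ≥0∞ :=
  ⨆ (i : Fin d) (j : Fin d) (_ : i.val < a ↔ j.val < a), datN p σ (rotd i j u₀) (rotd i j u₁)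

end Pool.Agent.H84.BR.CD
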