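import Pool.Agent.H93.AR.TargetsD
import Pool.Agent.H84.BR.Stmt

/-!
The final statement of stage 1 (MP_ee74d2_an).
-/

set_option autoImplicit false

namespace Pool.Agent.H84.BR

open MeasureTheory Set SchwartzMap
open scoped NNReal ENNReal
open Pool.Agent.H83.LS Pool.Agent.H93.AR

theorem dat_eq (n : ℕ) (p σ : ℝ) (f g : EE (n + 1) → ℂ) : dat p σ f g =
    eLpNorm (besS ((n : ℝ) / 2 - n / p - σ) f) (ENNReal.ofReal p) volume +
      eLpNorm (besS ((n : ℝ) / 2 - n / p - 1 - σ) g) (ENNReal.ofReal p) volume := by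
  unfold dat
  have h : (((n + 1 : ℕ) : ℝ) - 1) = n := by push_cast; ring
  rw [h]

theorem pf_end1 (hFN1 : T_FN1) : T_END1 := by
  intro n p σ hn hp hσ
  have hn0 : (0 : ℝ) < n := by
    have : 0 < n := by omega
    exact_mod_cast this
  have hp' : 2 + 2 / (n : ℝ) ≤ p := by
    have h1 : 2 * ((n : ℝ) + 1) / n = 2 + 2 / (n : ℝ) := by field_simp
    rw [h1] at hp
    exact hp
  obtain ⟨C, hC⟩ := hFN1 n p σ hn hp' hσ
  refine ⟨C, fun u₀ u₁ N₀ N₁ h1 h2 h3 => hC u₀ u₁ N₀ N₁ h1 ?_ ?_⟩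
  · rw [← dat_eq]
    exact h2
  · intro i j
    rw [← dat_eq]
    exact h3 i j

end Pool.Agent.H84.BR
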