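import Pool.Agent.H83.LS.Stmt
import Pool.Agent.H84.BR.Stmt
import Pool.Agent.H84.BR.ClaimDefs

/-!
The final statement in terms of named quantities (MP_ee74d2_an).
-/

set_option autoImplicit false

namespace Pool.Agent.H84.BR

open MeasureTheory Set SchwartzMap
open scoped NNReal ENNReal

theorem dat_eq_datN {d : ℕ} (p σ : ℝ) (f g : CD.EE d → ℂ) : dat p σ f g = CD.datN p σ f g := by
  unfold dat CD.datN CD.sobNorm
  rw [show ((d : ℝ) - 1) / 2 - ((d : ℝ) - 1) / p - σ = ((d : ℝ) - 1) * (1 / 2 - 1 / p) - σ by ring,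
    show ((d : ℝ) - 1) / 2 - ((d : ℝ) - 1) / p - 1 - σ =
      ((d : ℝ) - 1) * (1 / 2 - 1 / p) - 1 - σ by ring]
  rfl

theorem final (h : T_END) (a b : ℕ) (ha : 2 ≤ a) (hb : 1 ≤ b) (p σ : ℝ)
    (hp : 2 * ((a : ℝ) + b) / (a + b - 1) ≤ p) (hσ : σ < 1 / p) :
    ∃ C : ℝ≥0, ∀ u₀ u₁ : 𝓢(CD.EE (a + b), ℂ), CD.solNorm p u₀ u₁ ≤
      C * (CD.datN p σ u₀ u₁ ^ (1 - 2 / p) *
        (CD.datN p σ u₀ u₁ + CD.angR a p σ u₀ u₁) ^ (2 / p)) := by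
  obtain ⟨C, hC⟩ := h a b p σ ha hb hp hσ
  refine ⟨C, fun u₀ u₁ => ?_⟩
  refine hC u₀ u₁ (CD.datN p σ u₀ u₁) (CD.datN p σ u₀ u₁ + CD.angR a p σ u₀ u₁) le_self_add
    (dat_eq_datN p σ u₀ u₁).le ?_
  intro i j hij
  rw [dat_eq_datN]
  refine le_trans ?_ le_add_self
  unfold CD.angR
  exact le_iSup_of_le i (le_iSup_of_le j (le_iSup_of_le hij le_rfl))

end Pool.Agent.H84.BR
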