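import Pool.Agent.H84.BR.SGA
import Pool.Agent.H93.AR.TargetsD

/-!
Module SG (MP_ee74d2_an): strong type after two angular averages.
-/

set_option autoImplicit false

namespace Pool.Agent.H84.BR

open MeasureTheory Set Pool.Agent.H83.LS Pool.Agent.H19.LS Pool.Agent.H54.LS Pool.Agent.H93.AR
open scoped ENNReal NNReal ContDiff

/-- the first argument of the zonal kernel -/
theorem dir_cases {n : ℕ} (x : EE (n + 1)) :
    (hor x)⁻¹ • pr x = (0 : EE n) ∨ ‖(hor x)⁻¹ • pr x‖ = 1 := by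
  rcases (hor_nonneg x).eq_or_lt with h | h
  · left
    rw [← h, inv_zero, zero_smul]
  · right
    rw [norm_smul, norm_inv, Real.norm_of_nonneg (hor_nonneg x), hor_eq]
    have : ‖pr x‖ ≠ 0 := by
      rw [← hor_eq]
      exact h.ne'
    exact inv_mul_cancel₀ this

theorem zk_meas1 {n : ℕ} (L : ℝ) (z1 : Measurable fun q : EE n × EE n => zk n L q.1 q.2)
    (u : EE n) : Measurable fun v : EE n => zk n L u v := by
  have h0 : Measurable fun v : EE n => ((u, v) : EE n × EE n) := measurable_prodMk_left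
  have h1 : Measurable ((fun q : EE n × EE n => zk n L q.1 q.2) ∘ fun v => (u, v)) := z1.comp h0
  exact h1

theorem zk_meas2 {n : ℕ} (L : ℝ) (z1 : Measurable fun q : EE n × EE n => zk n L q.1 q.2)
    (u : EE n) : Measurable fun v : Sp n => zk n L u (v : EE n) := by
  have h1 : Measurable ((fun v : EE n => zk n L u v) ∘ fun v : Sp n => (v : EE n)) :=
    (zk_meas1 L z1 u).comp measurable_subtype_coe
  exact h1

theorem ts_aux {α β : Type} [MeasurableSpace α] [MeasurableSpace β] (μ : Measure α) (k : α → ℝ)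
    (hk : Measurable k) (hk0 : ∀ w, 0 ≤ k w) (hm : ∫⁻ w, ENNReal.ofReal (k w) ∂μ = 1)
    (J : α → β) (hJ : Measurable J) (g : ℤ → β → ℂ) (f : β → ℂ) (A : ℝ)
    (hg : ∀ l, Measurable (g l)) (hA : ∀ x, ∑' l, ‖g l x‖ₑ ≤ ENNReal.ofReal A)
    (hfg : ∀ x, f x = ∑' l, g l x) :
    ∫ w, ((k w : ℝ) : ℂ) * f (J w) ∂μ = ∑' l, ∫ w, ((k w : ℝ) : ℂ) * g l (J w) ∂μ ∧
    ∑' l, ‖∫ w, ((k w : ℝ) : ℂ) * g l (J w) ∂μ‖ₑ ≤ ENNReal.ofReal A := by
  have hzn : ∀ w, ‖((k w : ℝ) : ℂ)‖ₑ = ENNReal.ofReal (k w) := by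
    intro w
    rw [← ofReal_norm, Complex.norm_real, Real.norm_of_nonneg (hk0 _)]
  have hmm : ∀ l, Measurable fun w => ((k w : ℝ) : ℂ) * g l (J w) := fun l =>
    (Complex.measurable_ofReal.comp hk).mul ((hg l).comp hJ)
  have hbd : ∑' l, ∫⁻ w, ‖((k w : ℝ) : ℂ) * g l (J w)‖ₑ ∂μ ≤ ENNReal.ofReal A := by
    rw [← lintegral_tsum fun l => (hmm l).enorm.aemeasurable]
    calc ∫⁻ w, ∑' l, ‖((k w : ℝ) : ℂ) * g l (J w)‖ₑ ∂μ
        ≤ ∫⁻ w, ENNReal.ofReal (k w) * ENNReal.ofReal A ∂μ := by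
          refine lintegral_mono fun w => ?_
          have e1 : ∀ l, ‖((k w : ℝ) : ℂ) * g l (J w)‖ₑ =
              ENNReal.ofReal (k w) * ‖g l (J w)‖ₑ := fun l => by
            rw [enorm_mul, hzn]
          simp_rw [e1]
          rw [ENNReal.tsum_mul_left]
          exact mul_le_mul' le_rfl (hA _)
      _ = ENNReal.ofReal A := by
          rw [lintegral_mul_const' _ _ ENNReal.ofReal_ne_top, hm, one_mul]
  constructor
  · have h1 : ∫ w, ((k w : ℝ) : ℂ) * f (J w) ∂μ = ∫ w, ∑' l, ((k w : ℝ) : ℂ) * g l (J w) ∂μ := by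
      refine integral_congr_ae (Filter.Eventually.of_forall fun w => ?_)
      show ((k w : ℝ) : ℂ) * f (J w) = ∑' l, ((k w : ℝ) : ℂ) * g l (J w)
      rw [tsum_mul_left, hfg]
    rw [h1, integral_tsum]
    · intro l
      exact (hmm l).aestronglyMeasurable
    · exact ne_top_of_le_ne_top ENNReal.ofReal_ne_top hbd
  · refine (ENNReal.tsum_le_tsum fun l => ?_).trans hbd
    exact enorm_integral_le_lintegral_enorm _

theorem J_meas {n : ℕ} (r z : ℝ) : Measurable fun w : Sp n => jo (r • (w : EE n)) z := by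
  have h0 : Continuous fun w : Sp n => (((r • (w : EE n) : EE n), z) : EE n × ℝ) := by
    fun_prop
  have h1 : Continuous ((fun q : EE n × ℝ => jo q.1 q.2) ∘
      fun w : Sp n => (((r • (w : EE n) : EE n), z) : EE n × ℝ)) := continuous_jo.comp h0
  exact h1.measurable

theorem goodAL (hAM : T_AM) (hZN : T_ZN) (hZB : T_ZB) (n : ℕ) (hn : 1 ≤ n) (L : ℝ) (hL : 1 ≤ L) :
    GoodOp (AL L : (EE (n + 1) → ℂ) → EE (n + 1) → ℂ) := by
  obtain ⟨m1, m2, m3, m4, m5, m6⟩ := hAM n L hn hL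
  obtain ⟨Cz, hz⟩ := hZB n hn
  obtain ⟨z1, z2, z3, -⟩ := hz L hL
  refine ⟨m1, fun f A hf hA => m2 f A hf hA, fun f hf => ?_, ?_, fun f k hf => ?_⟩
  · have := m3 f 1 hf le_rfl
    simpa only [ENNReal.rpow_one] using this
  · intro g f A hg hf hA hfg x
    exact ts_aux (sg n) (fun w : Sp n => zk n L ((hor x)⁻¹ • pr x) (w : EE n))
      (zk_meas2 L z1 _) (fun w => z3 _ _) (hZN n L _ hn hL (dir_cases x))
      (fun w : Sp n => jo (hor x • (w : EE n)) (x (Fin.last n))) (J_meas _ _) g f A hg hA hfg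
  · set c : ℝ → ℝ → ℂ := fun r z => if Real.sqrt (r ^ 2 + z ^ 2) ≤ k then (1 : ℂ) else 0 with hc
    have hcx : ∀ (F : EE (n + 1) → ℂ) (x : EE (n + 1)), c (hor x) (x (Fin.last n)) * F x =
        (Metric.closedBall (0 : EE (n + 1)) k).indicator F x := by
      intro F x
      have h2 : Real.sqrt (hor x ^ 2 + x (Fin.last n) ^ 2) = ‖x‖ := by
        rw [← norm_sq_eq, Real.sqrt_sq (norm_nonneg _)]
      rw [hc]
      simp only [h2]
      by_cases hx : ‖x‖ ≤ k
      · rw [if_pos hx, indicator_of_mem (mem_closedBall_zero_iff.2 hx), one_mul]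
      · rw [if_neg hx, indicator_of_notMem (fun h => hx (mem_closedBall_zero_iff.1 h)), zero_mul]
    have h1 : (Metric.closedBall (0 : EE (n + 1)) k).indicator f = fun x =>
        c (hor x) (x (Fin.last n)) * f x := by
      funext x
      rw [hcx]
    funext x
    rw [h1, m5 f c x, hcx]

/-- module SG -/
theorem pf_sg (hMAL : T_MAL) (hAM : T_AM) (hZN : T_ZN) (hZB : T_ZB) (hMARC : T_MARC)
    (hRADL : T_RADL) (hPLE : T_PLE) : T_SG := by
  intro n p η hn hp hη
  have hcast : ((n + 1 : ℕ) : ℝ) - 1 = (n : ℝ) := by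
    push_cast
    ring
  have hG : ∀ L : ℝ, 1 ≤ L →
      GoodOp (fun f : EE (n + 1) → ℂ => AL L (AL L f)) := fun L hL =>
    (goodAL hAM hZN hZB n (by omega) L hL).comp (goodAL hAM hZN hZB n (by omega) L hL)
  have hM : MALh (n + 1) (fun L f => AL L (AL L f)) := by
    intro q θ hq hq2 hθ
    rw [hcast] at hq2
    exact hMAL n q θ hn hq hq2 hθ
  obtain ⟨C, hC⟩ := strongP hMARC hRADL hPLE (n + 1) (by omega)
    (fun L f => AL L (AL L f)) hG hM p η (by rw [hcast]; exact hp) hη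
  refine ⟨C, fun lam L f hL hL2 hm hi hb => ?_⟩
  have := hC lam L f hL hL2 hm hi hb
  rw [hcast] at this
  exact this

end Pool.Agent.H84.BR
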