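import Pool.Agent.H84.B2.Targets
import Pool.Agent.H84.BR.SG

/-!
Module GAQ (MP_ee74d2_an, stage 2): the averages on `ℝ^(a+b)` are good operators.
-/

set_option autoImplicit false

namespace Pool.Agent.H84.BR

open MeasureTheory Set FourierTransform
open Pool.Agent.H83.LS Pool.Agent.H93.AR Pool.Agent.H54.LS Pool.Agent.H83.AR
open Pool.Agent.H84.B2
open scoped ENNReal NNReal

theorem dir_cases' {n : ℕ} (y : EE n) : ‖y‖⁻¹ • y = (0 : EE n) ∨ ‖‖y‖⁻¹ • y‖ = 1 := by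
  rcases (norm_nonneg y).eq_or_lt with h | h
  · left
    rw [← h, inv_zero, zero_smul]
  · right
    rw [norm_smul, norm_inv, norm_norm]
    exact inv_mul_cancel₀ h.ne'

theorem cut_ball {a b : ℕ} (hJB : T_JB) (k : ℝ) (c : ℝ → ℝ → ℂ)
    (hc : c = fun r s => if Real.sqrt (r ^ 2 + s ^ 2) ≤ k then (1 : ℂ) else 0)
    (F : EE (a + b) → ℂ) (x : EE (a + b)) :
    c ‖p1 a b x‖ ‖p2 a b x‖ * F x = (Metric.closedBall (0 : EE (a + b)) k).indicator F x := by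
  obtain ⟨-, -, -, -, -, -, j7, -, -, -⟩ := hJB a b
  have h1 : ‖p1 a b x‖ ^ 2 + ‖p2 a b x‖ ^ 2 = ‖x‖ ^ 2 := by
    rw [← real_inner_self_eq_norm_sq, ← real_inner_self_eq_norm_sq, ← real_inner_self_eq_norm_sq]
    exact (j7 x x).symm
  have h2 : Real.sqrt (‖p1 a b x‖ ^ 2 + ‖p2 a b x‖ ^ 2) = ‖x‖ := by
    rw [h1, Real.sqrt_sq (norm_nonneg _)]
  rw [hc]
  simp only [h2]
  by_cases hx : ‖x‖ ≤ k
  · rw [if_pos hx, indicator_of_mem (mem_closedBall_zero_iff.2 hx), one_mul]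
  · rw [if_neg hx, indicator_of_notMem (fun h => hx (mem_closedBall_zero_iff.1 h)), zero_mul]

theorem good_A2 (hJB : T_JB) (hAM2 : Pool.Agent.H93.AR.T_AM2) (hZN : T_ZN) (hZB : T_ZB)
    (a b : ℕ) (hb : 1 ≤ b) (L : ℝ) (hL : 1 ≤ L) : GoodOp (A2 a b L) := by
  obtain ⟨m1, m2', m3, -, m5, -, -⟩ := hAM2 a b L hb hL
  obtain ⟨Cz, hz⟩ := hZB b hb
  obtain ⟨z1, z2, z3, -⟩ := hz L hL
  have hjc := (hJB a b).2.1
  refine ⟨m1, m2', fun f hf => ?_, ?_, fun f k hf => ?_⟩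
  · have := m3 f 1 hf le_rfl
    simpa only [ENNReal.rpow_one] using this
  · intro g f A hg hf hA hfg x
    refine ts_aux (sg b) (fun w : Sp b => zk b L (‖p2 a b x‖⁻¹ • p2 a b x) (w : EE b))
      (zk_meas2 L z1 _) (fun w => z3 _ _) (hZN b L _ hb hL (dir_cases' _))
      (fun w : Sp b => jm a b (p1 a b x) (‖p2 a b x‖ • (w : EE b))) ?_ g f A hg hA hfg
    have h0 : Continuous fun w : Sp b =>
        ((p1 a b x, (‖p2 a b x‖ • (w : EE b) : EE b)) : EE a × EE b) := by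
      fun_prop
    have h1 : Continuous ((fun q : EE a × EE b => jm a b q.1 q.2) ∘ fun w : Sp b =>
        ((p1 a b x, (‖p2 a b x‖ • (w : EE b) : EE b)) : EE a × EE b)) := hjc.comp h0
    exact h1.measurable
  · have h1 : (Metric.closedBall (0 : EE (a + b)) k).indicator f = fun x =>
        (fun (r : ℝ) (y : EE a) => (fun r s : ℝ => if Real.sqrt (r ^ 2 + s ^ 2) ≤ k then (1 : ℂ)
          else 0) ‖y‖ r) ‖p2 a b x‖ (p1 a b x) * f x := by
      funext x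
      exact (cut_ball hJB k _ rfl f x).symm
    funext x
    rw [h1]
    refine (m5 f (fun (r : ℝ) (y : EE a) => (fun r s : ℝ =>
      if Real.sqrt (r ^ 2 + s ^ 2) ≤ k then (1 : ℂ) else 0) ‖y‖ r) x).trans ?_
    exact cut_ball hJB k _ rfl (A2 a b L f) x

theorem good_A1 (hJB : T_JB) (hAM1 : T_AM1) (hZN : T_ZN) (hZB : T_ZB)
    (a b : ℕ) (ha : 1 ≤ a) (L : ℝ) (hL : 1 ≤ L) : GoodOp (A1 a b L) := by
  obtain ⟨m1, m2', m3, -, m5, -, -⟩ := hAM1 a b L ha hL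
  obtain ⟨Cz, hz⟩ := hZB a ha
  obtain ⟨z1, z2, z3, -⟩ := hz L hL
  have hjc := (hJB a b).2.1
  refine ⟨m1, m2', fun f hf => ?_, ?_, fun f k hf => ?_⟩
  · have := m3 f 1 hf le_rfl
    simpa only [ENNReal.rpow_one] using this
  · intro g f A hg hf hA hfg x
    refine ts_aux (sg a) (fun w : Sp a => zk a L (‖p1 a b x‖⁻¹ • p1 a b x) (w : EE a))
      (zk_meas2 L z1 _) (fun w => z3 _ _) (hZN a L _ ha hL (dir_cases' _))
      (fun w : Sp a => jm a b (‖p1 a b x‖ • (w : EE a)) (p2 a b x)) ?_ g f A hg hA hfg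
    have h0 : Continuous fun w : Sp a =>
        (((‖p1 a b x‖ • (w : EE a) : EE a), p2 a b x) : EE a × EE b) := by
      fun_prop
    have h1 : Continuous ((fun q : EE a × EE b => jm a b q.1 q.2) ∘ fun w : Sp a =>
        (((‖p1 a b x‖ • (w : EE a) : EE a), p2 a b x) : EE a × EE b)) := hjc.comp h0
    exact h1.measurable
  · have h1 : (Metric.closedBall (0 : EE (a + b)) k).indicator f = fun x =>
        (fun (r : ℝ) (y : EE b) => (fun r s : ℝ => if Real.sqrt (r ^ 2 + s ^ 2) ≤ k then (1 : ℂ)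
          else 0) r ‖y‖) ‖p1 a b x‖ (p2 a b x) * f x := by
      funext x
      exact (cut_ball hJB k _ rfl f x).symm
    funext x
    rw [h1]
    refine (m5 f (fun (r : ℝ) (y : EE b) => (fun r s : ℝ =>
      if Real.sqrt (r ^ 2 + s ^ 2) ≤ k then (1 : ℂ) else 0) r ‖y‖) x).trans ?_
    exact cut_ball hJB k _ rfl (A1 a b L f) x

/-- module GAQ -/
theorem pf_gaq (hJB : T_JB) (hAM1 : T_AM1) (hAM2 : Pool.Agent.H93.AR.T_AM2) (hZN : T_ZN)
    (hZB : T_ZB) : T_GAQ := by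
  intro a b L ha hb hL
  have h1 := good_A1 hJB hAM1 hZN hZB a b ha L hL
  have h2 := good_A2 hJB hAM2 hZN hZB a b hb L hL
  exact h1.comp (h1.comp (h2.comp h2))

end Pool.Agent.H84.BR
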