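import Pool.Agent.H84.BR.REM

/-!
Restricted type estimate on `ℝ^(a+b)` (MP_ee74d2_an, stage 2).
-/

set_option autoImplicit false

namespace Pool.Agent.H84.BR

open MeasureTheory Set FourierTransform
open Pool.Agent.H83.LS Pool.Agent.H93.AR Pool.Agent.H54.LS Pool.Agent.H83.AR
open Pool.Agent.H84.B2
open scoped ENNReal NNReal

theorem pf_ma2 (hJB : T_JB) (hAQP : T_AQP) (hREM : T_REM) (hGGG : T_GGG) : T_MA2 := by
  classical
  intro a b ha hb p η hp hpd' hη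
  have ha1 : 1 ≤ a := by omega
  have hb1 : 1 ≤ b := by omega
  have haR : (2 : ℝ) ≤ a := by exact_mod_cast ha
  have hbR : (2 : ℝ) ≤ b := by exact_mod_cast hb
  have hpd : ((a : ℝ) + b - 1) * (p / 2 - 1) ≤ 1 := by
    have hN : (0 : ℝ) < (a : ℝ) + b - 1 := by linarith
    have h1 : p ≤ 2 + 2 / ((a : ℝ) + b - 1) := by
      have := hpd'
      push_cast at this
      exact this
    have h2 : p / 2 - 1 ≤ 1 / ((a : ℝ) + b - 1) := by
      have : (2 : ℝ) / ((a : ℝ) + b - 1) = 2 * (1 / ((a : ℝ) + b - 1)) := by ring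
      rw [this] at h1
      linarith
    calc ((a : ℝ) + b - 1) * (p / 2 - 1) ≤ ((a : ℝ) + b - 1) * (1 / ((a : ℝ) + b - 1)) :=
          mul_le_mul_of_nonneg_left h2 hN.le
      _ = 1 := by field_simp
  obtain ⟨C₁, hC₁⟩ := hREM a b p (η / 2) ha hb hp hpd (by positivity)
  obtain ⟨C₂, hC₂⟩ := hGGG a b p (η / 2) ha hb hp hpd (by positivity)
  obtain ⟨C₃, hC₃⟩ := block (d := a + b) (p := p) (η := η / 2) hp (by positivity)
  refine ⟨C₃ * (C₁ + C₂), ?_⟩
  intro lam L A f hL hL2 hfd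
  have hf : BI A f := ⟨hfd.1, Pool.Agent.H19.LS.BCd_int A f hfd, hfd.2.1⟩
  have hl : 1 ≤ lam := by nlinarith
  have hl0 : 0 < lam := by linarith
  have hsq : L ≤ Real.sqrt lam := Real.le_sqrt_of_sq_le hL2
  have hsq1 : Real.sqrt lam * Real.sqrt lam = lam := Real.mul_self_sqrt hl0.le
  have hsq0 : 1 ≤ Real.sqrt lam := hL.trans hsq
  have hsym : Sym lam (fun t : ℝ => mT (d := a + b) lam t) :=
    { ct := fun ξ => by
        unfold mT
        exact (continuous_e.comp (by fun_prop)).mul continuous_const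
      ms := fun t => (Pool.Agent.H19.LS.mT_cont lam hl0 t).measurable
      le := fun t ξ => le_rfl }
  have hp2c : Continuous (p2 a b) := (hJB a b).2.2.2.1
  have hinn := (hJB a b).2.2.2.2.2.2.1
  have hp2n : ∀ ξ, ‖p2 a b ξ‖ ≤ ‖ξ‖ := by
    intro ξ
    have h1 := hinn ξ ξ
    rw [real_inner_self_eq_norm_sq, real_inner_self_eq_norm_sq, real_inner_self_eq_norm_sq] at h1
    nlinarith [norm_nonneg (p2 a b ξ), norm_nonneg ξ, sq_nonneg ‖p1 a b ξ‖,
      abs_le_of_sq_le_sq' (show ‖p2 a b ξ‖ ^ 2 ≤ ‖ξ‖ ^ 2 by nlinarith [sq_nonneg ‖p1 a b ξ‖])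
        (norm_nonneg ξ)]
  have heq : ∀ (c : ℝ → ℝ) (t : ℝ),
      (fun ξ => mT lam t ξ * ((c ‖p2 a b ξ‖ : ℝ) : ℂ)) =
        mc a b (fun _ => 1) c lam t := by
    intro c t
    funext ξ
    unfold mc
    push_cast
    ring
  have heq2 : ∀ (Lam t : ℝ),
      (fun ξ => mT lam t ξ * ((chi (‖p2 a b ξ‖ / Lam) : ℝ) : ℂ)) = m2 a b lam Lam t :=
    fun _ _ => rfl
  set B : ℝ≥0∞ := ((C₁ + C₂ : ℝ≥0) : ℝ≥0∞) * ENNReal.ofReal (L ^ 2 * lam ^ (η / 2) * A ^ (p - 2))
    with hBd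
  have hB1 : (C₁ : ℝ≥0∞) * ENNReal.ofReal (L ^ 2 * lam ^ (η / 2) * A ^ (p - 2)) ≤ B := by
    apply mul_le_mul' _ le_rfl
    exact_mod_cast (le_self_add : C₁ ≤ C₁ + C₂)
  have hB2 : (C₂ : ℝ≥0∞) * ENNReal.ofReal (L ^ 2 * lam ^ (η / 2) * A ^ (p - 2)) ≤ B := by
    apply mul_le_mul' _ le_rfl
    exact_mod_cast (le_add_self : C₂ ≤ C₁ + C₂)
  have hRg0 : ∀ (i : ℕ) (Lam : ℝ), i ≠ 1 →
      (univ : Set (EE (a + b))) ⊆ {x | Rg i L Lam ‖p2 a b x‖} := by
    intro i Lam hi x _ h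
    exact absurd h hi
  have hfin := hC₃ lam L A (fun t : ℝ => mT (d := a + b) lam t) (fun x => ‖p2 a b x‖) (AQ a b L)
    univ B f hL hL2 hsym hp2c.norm.measurable hp2n hf
    (fun g hg => (AQ_BI hAQP ha1 hb1 hL hg).2.1)
    (fun g h hg hh hs => AQ_add hAQP ha1 hb1 hL hf hh hs) ?_ ?_ ?_ ?_
  · simp only [Measure.restrict_univ] at hfin
    refine hfin.trans (le_of_eq ?_)
    rw [hBd, ENNReal.coe_mul]
    have h7 : ENNReal.ofReal (lam ^ η * L ^ 2 * A ^ (p - 2)) =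
        ENNReal.ofReal (lam ^ (η / 2)) *
          ENNReal.ofReal (L ^ 2 * lam ^ (η / 2) * A ^ (p - 2)) := by
      rw [← ENNReal.ofReal_mul (by positivity)]
      congr 1
      have h8 : lam ^ η = lam ^ (η / 2) * lam ^ (η / 2) := by
        rw [← Real.rpow_add hl0]; congr 1; ring
      rw [h8]; ring
    rw [h7]
    ring
  · simp only [heq (fun s => eta0 (s / (L * Real.sqrt lam)))]
    have h := hC₁ lam L A (L * Real.sqrt lam) (fun s => eta0 (s / (L * Real.sqrt lam))) 0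
      f hL hL2 le_rfl (by nlinarith) (by omega)
      (fun _ => ⟨rfl, fun _ => rfl⟩) (fun h => absurd rfl h) hf (fun h => by omega)
    refine (J_monoE (hRg0 0 _ (by norm_num)) _).trans (h.trans ?_)
    exact mul_le_mul' hB1 le_rfl
  · intro Lam g hg1 hg2 hgB hgf hgs
    simp only [heq (fun s => chi (s / Lam))]
    have h := hC₁ lam L A Lam (fun s => chi (s / Lam)) 2
      g hL hL2 hg1 hg2 le_rfl (fun h => by omega) (fun _ _ => rfl) hgB (fun _ => hgs)
    refine (J_monoE (hRg0 2 _ (by norm_num)) _).trans (h.trans ?_)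
    exact mul_le_mul' hB1 le_rfl
  · intro Lam g hg1 hg2 hgB hgf
    simp only [heq (fun s => chi (s / Lam))]
    have h := hC₁ lam L A Lam (fun s => chi (s / Lam)) 1
      g hL hL2 hg1 hg2 (by omega) (fun h => by omega) (fun _ _ => rfl) hgB (fun h => by omega)
    refine (J_monoE ?_ _).trans (h.trans ?_)
    · intro x hx _
      exact hx.2
    · exact mul_le_mul' hB1 le_rfl
  · intro Lam g hg1 hg2 hgB hgs
    simp only [heq2]
    have hLam0 : 0 < Lam := by nlinarith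
    have h := hC₂ lam Lam L A g hL hl (by
        calc L ^ 2 * lam = (L * Real.sqrt lam) ^ 2 := by rw [mul_pow, Real.sq_sqrt hl0.le]
          _ ≤ Lam ^ 2 := pow_le_pow_left₀ (by positivity) hg1 2) hLam0 hg2 hgB hgs
    exact h.trans (mul_le_mul' hB2 le_rfl)

end Pool.Agent.H84.BR
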