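import Pool.Agent.H35.BR.PG
import Pool.Agent.H83.AR.Targets2

/-!
# PG2: good data, good output, slabs in the last variable

Adapted from `Pool.Agent.H35.BR.PG` (helper35).
-/

set_option autoImplicit false

namespace Pool.Agent.H84.BR.PG2m

open MeasureTheory Set FourierTransform Filter
open Pool.Agent.H83.AR Pool.Agent.H93.AR Pool.Agent.H83.LS Pool.Agent.H54.LS Pool.Agent.H14.LS
open Pool.Agent.H83.LS.PIEm
open Pool.Agent.H35.BR (AL_cut AL_bcd cut_supp cut_sq_le shl shl_meas shl_sum beta_facts arith2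
  int_sum_set cv_meas_abs swap_abs W_meas)
open scoped ENNReal NNReal

variable {n : ℕ}

/-! ### measurability and the exchange of integrals -/

lemma KK2_meas (lam Lam M : ℝ) :
    Measurable fun q : ℝ × (ℝ × ℝ) => KK2 q.1 lam Lam M q.2 := by
  unfold KK2
  apply StronglyMeasurable.measurable
  apply StronglyMeasurable.integral_prod_right
    (f := fun (q : ℝ × (ℝ × ℝ)) (ξ : ℝ × ℝ) =>
      e (q.2.1 * ξ.1 + q.2.2 * ξ.2 + q.1 * Real.sqrt (ξ.1 ^ 2 + ξ.2 ^ 2)) *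
        ((chi (Real.sqrt (ξ.1 ^ 2 + ξ.2 ^ 2) / lam) * chis (ξ.1 / Lam) * chis (ξ.2 / M) : ℝ) : ℂ))
  apply Measurable.stronglyMeasurable
  apply Measurable.mul
  · exact measurable_e.comp (by fun_prop)
  · apply Complex.measurable_ofReal.comp
    apply Measurable.mul
    · apply Measurable.mul
      · exact chi_smooth.continuous.measurable.comp (by fun_prop)
      · exact Pool.Agent.H35.BR.chis_meas.comp (by fun_prop)
    · exact Pool.Agent.H35.BR.chis_meas.comp (by fun_prop)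

lemma cv_meas {lam Lam M : ℝ} {G : Sp n → ℝ × ℝ → ℂ}
    (hG : Measurable fun q : Sp n × (ℝ × ℝ) => G q.1 q.2) :
    Measurable fun q : (ℝ × Sp n) × (ℝ × ℝ) => cv (KK2 q.1.1 lam Lam M) (G q.1.2) q.2 := by
  unfold cv
  exact cv_meas_abs (K := fun t => KK2 t lam Lam M) (KK2_meas lam Lam M) hG

lemma swap_int {lam Lam M p : ℝ} (S : Set (ℝ × ℝ)) {G : Sp n → ℝ × ℝ → ℂ}
    (hG : Measurable fun q : Sp n × (ℝ × ℝ) => G q.1 q.2) {W : ℝ × ℝ → ℝ≥0∞}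
    (hW : Measurable W) :
    ∫⁻ t in Icc (1 : ℝ) 2, ∫⁻ v : Sp n, ∫⁻ x in S, ‖cv (KK2 t lam Lam M) (G v) x‖ₑ ^ p * W x
        ∂volume ∂(sg n) =
      ∫⁻ v : Sp n, ∫⁻ t in Icc (1 : ℝ) 2, ∫⁻ x in S, ‖cv (KK2 t lam Lam M) (G v) x‖ₑ ^ p * W x
        ∂volume ∂volume ∂(sg n) := by
  have h0 : Measurable fun q : (ℝ × Sp n) × (ℝ × ℝ) => cv (KK2 q.1.1 lam Lam M) (G q.1.2) q.2 :=
    cv_meas (lam := lam) (Lam := Lam) (M := M) hG
  have h1 : Measurable fun q : (ℝ × Sp n) × (ℝ × ℝ) =>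
      ‖cv (KK2 q.1.1 lam Lam M) (G q.1.2) q.2‖ₑ ^ p := h0.enorm.pow_const p
  have h2 : Measurable fun q : (ℝ × Sp n) × (ℝ × ℝ) => W q.2 := hW.comp measurable_snd
  have h3 : Measurable fun q : (ℝ × Sp n) × (ℝ × ℝ) =>
      ‖cv (KK2 q.1.1 lam Lam M) (G q.1.2) q.2‖ₑ ^ p * W q.2 := h1.mul h2
  exact swap_abs (μ := volume.restrict (Icc (1 : ℝ) 2)) (ν := sg n) (κ := volume.restrict S)
    (F := fun t v x => ‖cv (KK2 t lam Lam M) (G v) x‖ₑ ^ p * W x) h3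

theorem mj2_le (n : ℕ) (lam Lam M t : ℝ) (ξ : EE (n + 1)) :
    ‖mj2 n lam Lam M t ξ‖ ≤ ‖mj n lam Lam t ξ‖ := by
  unfold mj2
  rw [norm_mul, Complex.norm_real, Real.norm_eq_abs]
  refine mul_le_of_le_one_right (norm_nonneg _) ?_
  unfold chis
  rw [abs_le]
  constructor <;> linarith [eta0_nonneg (ξ (Fin.last n) / M / 2),
    eta0_nonneg (4 * (ξ (Fin.last n) / M)), eta0_le_one (ξ (Fin.last n) / M / 2),
    eta0_le_one (4 * (ξ (Fin.last n) / M))]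

theorem mj2_meas (n : ℕ) (lam Lam M : ℝ) :
    Measurable fun q : ℝ × EE (n + 1) => mj2 n lam Lam M q.1 q.2 := by
  unfold mj2
  apply (mj_meas n lam Lam).mul
  apply Complex.measurable_ofReal.comp
  exact chis_smooth.continuous.measurable.comp (by fun_prop)

theorem mj2_int (n : ℕ) {lam : ℝ} (hl : 0 < lam) (Lam M t : ℝ) :
    Integrable (mj2 n lam Lam M t) := by
  have h1 : Measurable (mj2 n lam Lam M t) := by
    unfold mj2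
    apply (mj_meas' n lam Lam t).mul
    apply Complex.measurable_ofReal.comp
    exact chis_smooth.continuous.measurable.comp (by fun_prop)
  exact (mj_int n hl Lam t).norm.mono' h1.aestronglyMeasurable
    (ae_of_all _ fun ξ => mj2_le n lam Lam M t ξ)

lemma MM_sum2 {lam Lam M : ℝ} (hl : 0 < lam) (t : ℝ) {A : ℝ} {f : EE (n + 1) → ℂ}
    (hA : BCd A f) (J : ℕ) (R : ℕ → Set ℝ) (hR : ∀ j, MeasurableSet (R j))
    (hf : ∀ x, f x = ∑ j ∈ Finset.range J, cutR (R j) f x) (x : EE (n + 1)) :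
    MM (mj2 n lam Lam M t) f x =
      ∑ j ∈ Finset.range J, MM (mj2 n lam Lam M t) (cutR (R j) f) x := by
  have hi : ∀ j, Integrable (cutR (R j) f) := fun j => Pool.Agent.H14.LS.bcd_int (cut_bcd (hR j) hA)
  have h1 : ∀ ξ, 𝓕 f ξ = ∑ j ∈ Finset.range J, 𝓕 (cutR (R j) f) ξ := by
    intro ξ
    rw [← WAm.fourier_sum (Finset.range J) (fun j => cutR (R j) f) (fun j _ => hi j) ξ]
    have h2 : f = fun x => ∑ j ∈ Finset.range J, cutR (R j) f x := funext hf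
    exact congrArg (fun g : EE (n + 1) → ℂ => 𝓕 g ξ) h2
  unfold MM
  rw [← integral_finsetSum _ (fun j _ => Pool.Agent.H14.LS.sym_int2
    (mj2_int n hl Lam M t) (hi j) x)]
  congr 1
  funext ξ
  rw [h1 ξ, Finset.mul_sum, Finset.mul_sum]

lemma MM_meas_cut {lam Lam M p A : ℝ} {F : EE (n + 1) → ℂ} (hF : BCd A F) {R : Set ℝ}
    (hR : MeasurableSet R) : Measurable fun q : ℝ × EE (n + 1) =>
        ‖MM (mj2 n lam Lam M q.1) (cutR R F) q.2‖ₑ ^ p :=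
  (MM_meas (mj2_meas n lam Lam M) (fourier_meas' (bcd_int (cut_bcd hR hF)))).enorm.pow_const _

/-! ### arithmetic -/

lemma facts {p γ : ℝ} (hn : 2 ≤ n) (hp2 : 2 < p) (hγ : 0 ≤ γ)
    (hng : (n : ℝ) * (p / 2 - 1) + γ ≤ 1) : p ≤ 3 ∧ 0 ≤ ((n : ℝ) - 1) * (p / 2 - 1) ∧
    ((n : ℝ) - 1) * (p / 2 - 1) < 1 ∧ ((n : ℝ) - 1) * (p / 2 - 1) + γ ≤ 2 - p / 2 ∧
    (((n : ℝ) - 1) / 2) * (p - 2) = ((n : ℝ) - 1) * (p / 2 - 1) ∧ γ ≤ 2 - p / 2 := by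
  have hn2 : (2 : ℝ) ≤ n := by exact_mod_cast hn
  have h0 : 0 < p / 2 - 1 := by linarith
  have h1 : 2 * (p / 2 - 1) ≤ n * (p / 2 - 1) := mul_le_mul_of_nonneg_right hn2 h0.le
  have h2 : 0 ≤ ((n : ℝ) - 1) * (p / 2 - 1) := mul_nonneg (by linarith) h0.le
  have h3 : ((n : ℝ) - 1) * (p / 2 - 1) = n * (p / 2 - 1) - (p / 2 - 1) := by ring
  refine ⟨by linarith, h2, by linarith, by linarith, by ring, by linarith⟩

lemma arith3 {D D' s β A C2 lam η p b : ℝ} (hb : 0 ≤ b) (hD : 0 < D) (hD' : 0 < D')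
    (h : D' ≤ 2 * D) (hA : 0 ≤ A) (hC2 : 0 ≤ C2) (hlam : 0 < lam) (hβ0 : 0 ≤ β)
    (hs : s * (p - 2) = β) :
    ENNReal.ofReal (D ^ (-β)) *
      ENNReal.ofReal (lam ^ η * b * (C2 * (D' ^ s * A)) ^ (p - 2)) ≤
      (Real.toNNReal (2 ^ β * C2 ^ (p - 2)) : ℝ≥0∞) *
        ENNReal.ofReal (lam ^ η * b * A ^ (p - 2)) := by
  have h1 := arith2 (D := D) (D' := D') (s := s) (β := β) (A := A) (C2 := C2) (lam := lam)
    (η := η) (p := p) hD hD' h hA hC2 hlam hβ0 hs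
  have h2 : ∀ X : ℝ, ENNReal.ofReal (lam ^ η * b * X) =
      ENNReal.ofReal b * ENNReal.ofReal (lam ^ η * X) := by
    intro X
    rw [← ENNReal.ofReal_mul hb]
    congr 1
    ring
  rw [h2, h2]
  calc ENNReal.ofReal (D ^ (-β)) * (ENNReal.ofReal b *
        ENNReal.ofReal (lam ^ η * (C2 * (D' ^ s * A)) ^ (p - 2)))
      = ENNReal.ofReal b * (ENNReal.ofReal (D ^ (-β)) *
        ENNReal.ofReal (lam ^ η * (C2 * (D' ^ s * A)) ^ (p - 2))) := by ring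
    _ ≤ ENNReal.ofReal b * ((Real.toNNReal (2 ^ β * C2 ^ (p - 2)) : ℝ≥0∞) *
        ENNReal.ofReal (lam ^ η * A ^ (p - 2))) := by gcongr
    _ = _ := by ring

/-! ### the plane -/

theorem plane (hS : T_S22) (p γ η : ℝ) (hp2 : 2 < p) (hp3 : p ≤ 3) (hγ : 0 ≤ γ)
    (hγp : γ ≤ 2 - p / 2) (hη : 0 < η) : ∃ C : ℝ≥0, ∀ (lam Lam M : ℝ) (g : ℝ × ℝ → ℂ) (A ε : ℝ),
    1 ≤ lam → 0 < Lam → Lam ≤ 4 * lam → 0 < M → M ≤ 4 * lam → Measurable g → Integrable g →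
    (∀ y, ‖g y‖ ≤ A) → 0 < ε →
    ∫⁻ t in Icc (1 : ℝ) 2, ∫⁻ x in {x : ℝ × ℝ | |x.2| ≤ ε}, ‖cv (KK2 t lam Lam M) g x‖ₑ ^ p ≤
      C * ENNReal.ofReal (lam ^ η * (ε * lam / M) ^ γ * A ^ (p - 2)) * ∫⁻ y, ‖g y‖ₑ ^ 2 := by
  obtain ⟨C, hC⟩ := hS p η hp2 hp3 hη
  refine ⟨C, ?_⟩
  intro lam Lam M g A ε hlam hLam hLL hM hMM gm gi gb hε
  have hA0 : 0 ≤ A := (norm_nonneg _).trans (gb 0)
  have hlam0 : 0 < lam := by linarith
  obtain ⟨h1, -, h3⟩ := hC lam Lam M g A hlam hLam hLL hM hMM gm gi gb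
  have hb0 : 0 < ε * lam / M := by positivity
  rcases le_total (ε * lam / M) 1 with hb | hb
  · refine (h3 ε hε).trans ?_
    have h4 : (ε * lam / M) ^ (2 - p / 2) ≤ (ε * lam / M) ^ γ :=
      Real.rpow_le_rpow_of_exponent_ge hb0 hb hγp
    gcongr
  · have h5 : ∫⁻ t in Icc (1 : ℝ) 2, ∫⁻ x in {x : ℝ × ℝ | |x.2| ≤ ε},
        ‖cv (KK2 t lam Lam M) g x‖ₑ ^ p ≤
        ∫⁻ t in Icc (1 : ℝ) 2, ∫⁻ x, ‖cv (KK2 t lam Lam M) g x‖ₑ ^ p :=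
      lintegral_mono fun t => setLIntegral_le_lintegral _ _
    refine (h5.trans h1).trans ?_
    have h4 : 1 ≤ (ε * lam / M) ^ γ := Real.one_le_rpow hb hγ
    have h6 : lam ^ η * A ^ (p - 2) ≤ lam ^ η * (ε * lam / M) ^ γ * A ^ (p - 2) := by
      have h7 : 0 ≤ lam ^ η * A ^ (p - 2) := by positivity
      calc lam ^ η * A ^ (p - 2) = lam ^ η * A ^ (p - 2) * 1 := by ring
        _ ≤ lam ^ η * A ^ (p - 2) * (ε * lam / M) ^ γ := mul_le_mul_of_nonneg_left h4 h7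
        _ = _ := by ring
    gcongr

/-! ### away from the axis -/

attribute [local irreducible] KK2 cv GT MM mj2 AL

theorem far (hPA : T_PA2) (hS : T_S22) (hGO : T_GO) (n : ℕ) (p γ η : ℝ) (hn : 2 ≤ n)
    (hp2 : 2 < p) (hγ : 0 ≤ γ) (hng : (n : ℝ) * (p / 2 - 1) + γ ≤ 1) (hη : 0 < η) :
    ∃ C : ℝ≥0, ∀ (lam Lam M L A ε : ℝ) (f : EE (n + 1) → ℂ), 1 ≤ lam → 1 ≤ Lam → Lam ≤ 4 * lam →
    1 ≤ M → M ≤ 4 * lam → 1 ≤ L → L ^ 2 ≤ 8 * Lam → BCd A f → 1 / M ≤ ε → ∀ i : ℕ, 2 ≤ i →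
    (∀ x, f x ≠ 0 → 8 * ((i : ℝ) - 1) ≤ hor x ∧ hor x ≤ 8 * ((i : ℝ) + 2)) →
    ∫⁻ t in Icc (1 : ℝ) 2, ∫⁻ x in {x : EE (n + 1) | (8 * (i : ℝ) ≤ hor x ∧
      hor x ≤ 8 * ((i : ℝ) + 1)) ∧ |x (Fin.last n)| ≤ ε}, ‖MM (mj2 n lam Lam M t) (AL L (AL L f)) x‖ₑ ^ p ≤
      C * ENNReal.ofReal (lam ^ η * (ε * lam / M) ^ γ * A ^ (p - 2)) * ∫⁻ x, ‖f x‖ₑ ^ 2 := by
  obtain ⟨hp3, hβ0, hβ1, hβ2, hsβ, hγp⟩ := facts hn hp2 hγ hng
  set β : ℝ := ((n : ℝ) - 1) * (p / 2 - 1) with hβ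
  obtain ⟨C1, hC1⟩ := hPA n p hn (by linarith) hβ1 hβ0
  obtain ⟨⟨C2, hC20, hC2⟩, -⟩ := hGO n hn
  obtain ⟨C3, hC3⟩ := plane hS p γ η hp2 hp3 hγ hγp hη
  refine ⟨C1 * C3 * Real.toNNReal (2 ^ β * C2 ^ (p - 2)) * Real.toNNReal C2, ?_⟩
  intro lam Lam M L A ε f hlam hLam hLL hM1 hMM hL hL8 hA hε i hi hsupp
  have hn2 : (2 : ℝ) ≤ n := by exact_mod_cast hn
  have hi2 : (2 : ℝ) ≤ i := by exact_mod_cast hi
  have hlam0 : 0 < lam := by linarith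
  have hM0 : 0 < M := by linarith
  have hε0 : 0 < ε := lt_of_lt_of_le (by positivity) hε
  have hb0 : 0 < ε * lam / M := by positivity
  have hLam0 : 0 < Lam := by linarith
  have hA0 : 0 ≤ A := bcd_nonneg hA
  have hsL : ∀ x, f x ≠ 0 → L ^ 2 ≤ Lam * hor x := by
    intro x hx
    have h1 := (hsupp x hx).1
    have h2 : 8 * Lam ≤ Lam * hor x := by nlinarith
    linarith
  set A1 : ℝ := (8 * ((i : ℝ) + 2)) ^ (((n : ℝ) - 1) / 2) * A with hA1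
  have hA10 : 0 ≤ A1 := by positivity
  have hAA : ∀ x, hor x ^ (((n : ℝ) - 1) / 2) * ‖f x‖ ≤ A1 := by
    intro x
    by_cases hx : f x = 0
    · rw [hx, norm_zero, mul_zero]
      exact hA10
    · rw [hA1]
      refine mul_le_mul (Real.rpow_le_rpow (Pool.Agent.H54.LS.hor_nonneg x) (hsupp x hx).2
        (by linarith)) (hA.2.1 x) (norm_nonneg _) (by positivity)
  obtain ⟨gm, gi, gb, g2⟩ := hC2 L Lam A1 A f hL hLam0 hA hsL hAA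
  have step1 : ∀ t, ∫⁻ x in {x : EE (n + 1) | (8 * (i : ℝ) ≤ hor x ∧
      hor x ≤ 8 * ((i : ℝ) + 1)) ∧ |x (Fin.last n)| ≤ ε}, ‖MM (mj2 n lam Lam M t) (AL L (AL L f)) x‖ₑ ^ p ≤
      C1 * ENNReal.ofReal ((8 * (i : ℝ)) ^ (-β)) *
        ∫⁻ v : Sp n, ∫⁻ x in {x : ℝ × ℝ | |x.2| ≤ ε}, ‖cv (KK2 t lam Lam M) (GT n L Lam f v) x‖ₑ ^ p
          ∂volume ∂(sg n) := by
    intro t
    refine (hC1 L lam Lam M t A ε f (Icc (8 * (i : ℝ)) (8 * ((i : ℝ) + 1))) hL hlam0 hLam0 hM0 hA hsL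
      measurableSet_Icc ?_).2 (8 * (i : ℝ)) (by positivity) (fun r hr => hr.1)
    intro r hr
    have h1 : 16 ≤ r := by linarith [hr.1]
    exact ⟨by linarith, by nlinarith⟩
  have hsw := swap_int (lam := lam) (Lam := Lam) (M := M) (p := p) {x : ℝ × ℝ | |x.2| ≤ ε} (G := GT n L Lam f) gm
    (W := fun _ => (1 : ℝ≥0∞)) measurable_const
  simp only [mul_one] at hsw
  calc ∫⁻ t in Icc (1 : ℝ) 2, ∫⁻ x in {x : EE (n + 1) | (8 * (i : ℝ) ≤ hor x ∧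
      hor x ≤ 8 * ((i : ℝ) + 1)) ∧ |x (Fin.last n)| ≤ ε}, ‖MM (mj2 n lam Lam M t) (AL L (AL L f)) x‖ₑ ^ p
      ≤ ∫⁻ t in Icc (1 : ℝ) 2, C1 * ENNReal.ofReal ((8 * (i : ℝ)) ^ (-β)) *
        ∫⁻ v : Sp n, ∫⁻ x in {x : ℝ × ℝ | |x.2| ≤ ε}, ‖cv (KK2 t lam Lam M) (GT n L Lam f v) x‖ₑ ^ p
          ∂volume ∂(sg n) := lintegral_mono step1
    _ = C1 * ENNReal.ofReal ((8 * (i : ℝ)) ^ (-β)) * ∫⁻ v : Sp n, ∫⁻ t in Icc (1 : ℝ) 2,
        ∫⁻ x in {x : ℝ × ℝ | |x.2| ≤ ε}, ‖cv (KK2 t lam Lam M) (GT n L Lam f v) x‖ₑ ^ p ∂volume ∂volume ∂(sg n) := by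
        rw [lintegral_const_mul' _ _ (ENNReal.mul_ne_top ENNReal.coe_ne_top
          ENNReal.ofReal_ne_top), hsw]
    _ ≤ C1 * ENNReal.ofReal ((8 * (i : ℝ)) ^ (-β)) * ∫⁻ v : Sp n,
        C3 * ENNReal.ofReal (lam ^ η * (ε * lam / M) ^ γ * (C2 * A1) ^ (p - 2)) *
          ∫⁻ y, ‖GT n L Lam f v y‖ₑ ^ 2 ∂volume ∂(sg n) := by
        gcongr with v
        exact hC3 lam Lam M (GT n L Lam f v) (C2 * A1) ε hlam hLam0 hLL hM0 hMM
          (gm.comp measurable_prodMk_left) (gi v) (gb v) hε0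
    _ = C1 * ENNReal.ofReal ((8 * (i : ℝ)) ^ (-β)) *
        (C3 * ENNReal.ofReal (lam ^ η * (ε * lam / M) ^ γ * (C2 * A1) ^ (p - 2)) *
          ∫⁻ v : Sp n, ∫⁻ y, ‖GT n L Lam f v y‖ₑ ^ 2 ∂volume ∂(sg n)) := by
        rw [lintegral_const_mul' _ _ (ENNReal.mul_ne_top ENNReal.coe_ne_top
          ENNReal.ofReal_ne_top)]
    _ ≤ C1 * ENNReal.ofReal ((8 * (i : ℝ)) ^ (-β)) *
        (C3 * ENNReal.ofReal (lam ^ η * (ε * lam / M) ^ γ * (C2 * A1) ^ (p - 2)) *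
          (ENNReal.ofReal C2 * ∫⁻ x, ‖f x‖ₑ ^ 2)) := by
        gcongr
    _ = (C1 * C3 * ENNReal.ofReal C2) * (ENNReal.ofReal ((8 * (i : ℝ)) ^ (-β)) *
        ENNReal.ofReal (lam ^ η * (ε * lam / M) ^ γ * (C2 * A1) ^ (p - 2))) * ∫⁻ x, ‖f x‖ₑ ^ 2 := by ring
    _ ≤ (C1 * C3 * ENNReal.ofReal C2) * ((Real.toNNReal (2 ^ β * C2 ^ (p - 2)) : ℝ≥0∞) *
        ENNReal.ofReal (lam ^ η * (ε * lam / M) ^ γ * A ^ (p - 2))) * ∫⁻ x, ‖f x‖ₑ ^ 2 := by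
        have h9 := arith3 (b := (ε * lam / M) ^ γ) (D := 8 * (i : ℝ)) (D' := 8 * ((i : ℝ) + 2))
          (s := ((n : ℝ) - 1) / 2) (β := β) (A := A) (C2 := C2) (lam := lam) (η := η) (p := p)
          (by positivity) (by positivity) (by positivity) (by linarith) hA0 hC20 hlam0 hβ0 hsβ
        gcongr
    _ = _ := by
        push_cast
        rw [show ENNReal.ofReal C2 = (Real.toNNReal C2 : ℝ≥0∞) from rfl]
        ring

/-! ### near the axis: one dyadic shell -/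

theorem near_piece (hPA : T_PA2) (hWP : T_WP2) (hGO : T_GO) (n : ℕ) (p γ η : ℝ) (hn : 2 ≤ n)
    (hp2 : 2 < p) (hγ : 0 ≤ γ) (hng : (n : ℝ) * (p / 2 - 1) + γ ≤ 1) (hη : 0 < η) :
    ∃ C : ℝ≥0, ∀ (lam Lam M L A D ε : ℝ) (f : EE (n + 1) → ℂ), 1 ≤ lam → 1 ≤ Lam → Lam ≤ 4 * lam →
    1 ≤ M → M ≤ 4 * lam → 1 ≤ L → BCd A f → 1 / M ≤ ε → 0 < D → L ^ 2 ≤ Lam * D → D ≤ 64 →
    (∀ x, f x ≠ 0 → D ≤ hor x ∧ hor x ≤ 2 * D) →
    ∫⁻ t in Icc (1 : ℝ) 2, ∫⁻ x in {x : EE (n + 1) | L ^ 2 ≤ Lam * hor x ∧ |x (Fin.last n)| ≤ ε},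
      ‖MM (mj2 n lam Lam M t) (AL L (AL L f)) x‖ₑ ^ p ≤
      C * ENNReal.ofReal (lam ^ η * (ε * lam / M) ^ γ * A ^ (p - 2)) * ∫⁻ x, ‖f x‖ₑ ^ 2 := by
  obtain ⟨hp3, hβ0, hβ1, hβ2, hsβ, hγp⟩ := facts hn hp2 hγ hng
  set β : ℝ := ((n : ℝ) - 1) * (p / 2 - 1) with hβ
  obtain ⟨C1, hC1⟩ := hPA n p hn (by linarith) hβ1 hβ0
  obtain ⟨N, C4, hC4⟩ := hWP p β γ η hp2 hp3 hβ0 hβ1 hγ hβ2 hη
  obtain ⟨⟨C2, hC20, hC2⟩, hGO2⟩ := hGO n hn
  obtain ⟨C3, hC30, hC3⟩ := hGO2 N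
  refine ⟨C1 * C4 * Real.toNNReal (2 ^ β * (C2 + C3) ^ (p - 2)) *
    (Real.toNNReal C2 + Real.toNNReal C3), ?_⟩
  intro lam Lam M L A D ε f hlam hLam hLL hM1 hMM hL hA hε hD hLD hD64 hsupp
  have hn2 : (2 : ℝ) ≤ n := by exact_mod_cast hn
  have hlam0 : 0 < lam := by linarith
  have hM0 : 0 < M := by linarith
  have hε0 : 0 < ε := lt_of_lt_of_le (by positivity) hε
  have hb0 : 0 < ε * lam / M := by positivity
  have hLam0 : 0 < Lam := by linarith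
  have hA0 : 0 ≤ A := bcd_nonneg hA
  have hL2 : (1 : ℝ) ≤ L ^ 2 := one_le_pow₀ hL
  have hLD1 : 1 ≤ Lam * D := hL2.trans hLD
  have hLD0 : 0 < Lam * D := by linarith
  have hsL : ∀ x, f x ≠ 0 → L ^ 2 ≤ Lam * hor x := by
    intro x hx
    have h1 := (hsupp x hx).1
    have h2 : Lam * D ≤ Lam * hor x := by nlinarith
    linarith
  set A1 : ℝ := (2 * D) ^ (((n : ℝ) - 1) / 2) * A with hA1
  have hA10 : 0 ≤ A1 := by positivity
  have hAA : ∀ x, hor x ^ (((n : ℝ) - 1) / 2) * ‖f x‖ ≤ A1 := by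
    intro x
    by_cases hx : f x = 0
    · rw [hx, norm_zero, mul_zero]
      exact hA10
    · rw [hA1]
      refine mul_le_mul (Real.rpow_le_rpow (Pool.Agent.H54.LS.hor_nonneg x) (hsupp x hx).2
        (by linarith)) (hA.2.1 x) (norm_nonneg _) (by positivity)
  obtain ⟨gm, gi, gb, g2⟩ := hC2 L Lam A1 A f hL hLam0 hA hsL hAA
  obtain ⟨hb, h2b⟩ := hC3 L Lam A1 A D f hL hLam0 hA hsL hAA hLD1 (fun x hx => (hsupp x hx).1)
  set X : Sp n → ℝ≥0∞ := fun v => ∫⁻ x, ‖GT n L Lam f v x‖ₑ ^ 2 +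
    0 with hX0
  set Y : Sp n → ℝ≥0∞ := fun v => ∫⁻ x in {x : ℝ × ℝ | |x.1| ≤ D / 2}, ‖GT n L Lam f v x‖ₑ ^ 2
    with hY
  have hXe : ∀ v, X v = ∫⁻ x, ‖GT n L Lam f v x‖ₑ ^ 2 := fun v => by
    rw [hX0]
    simp only [add_zero]
  have hXm : Measurable X := by
    have h1 : Measurable fun q : Sp n × (ℝ × ℝ) => ‖GT n L Lam f q.1 q.2‖ₑ ^ 2 :=
      gm.enorm.pow_const 2
    have h2 := Measurable.lintegral_prod_right' (ν := (volume : Measure (ℝ × ℝ))) h1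
    have h3 : X = fun v => ∫⁻ x, ‖GT n L Lam f v x‖ₑ ^ 2 := funext hXe
    rw [h3]
    exact h2
  set P : ℝ≥0∞ := ENNReal.ofReal ((Lam * D) ^ N) with hP
  have hXint : ∫⁻ v : Sp n, (X v + P * Y v) ∂(sg n) ≤
      (ENNReal.ofReal C2 + ENNReal.ofReal C3) * ∫⁻ x, ‖f x‖ₑ ^ 2 := by
    rw [lintegral_add_left hXm, add_mul]
    refine add_le_add ?_ ?_
    · simp_rw [hXe]
      exact g2
    · rw [lintegral_const_mul' _ _ ENNReal.ofReal_ne_top]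
      calc P * ∫⁻ v : Sp n, Y v ∂(sg n)
          ≤ P * (ENNReal.ofReal (C3 / (Lam * D) ^ N) * ∫⁻ x, ‖f x‖ₑ ^ 2) := by
            gcongr
        _ = ENNReal.ofReal C3 * ∫⁻ x, ‖f x‖ₑ ^ 2 := by
            rw [← mul_assoc, hP, ← ENNReal.ofReal_mul (by positivity)]
            congr 2
            field_simp
  have hR : MeasurableSet {r : ℝ | 0 < r ∧ L ^ 2 ≤ Lam * r} :=
    (measurableSet_lt measurable_const measurable_id).inter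
      (measurableSet_le measurable_const (measurable_id.const_mul _))
  have hset : {x : EE (n + 1) | L ^ 2 ≤ Lam * hor x ∧ |x (Fin.last n)| ≤ ε} =
      {x : EE (n + 1) | hor x ∈ {r : ℝ | 0 < r ∧ L ^ 2 ≤ Lam * r} ∧ |x (Fin.last n)| ≤ ε} := by
    ext x
    simp only [mem_ofPred_eq]
    constructor
    · intro h
      refine ⟨⟨?_, h.1⟩, h.2⟩
      by_contra h0
      have h1 : hor x ≤ 0 := not_lt.1 h0
      nlinarith [h.1]
    · exact fun h => ⟨h.1.2, h.2⟩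
  have step1 : ∀ t, ∫⁻ x in {x : EE (n + 1) | L ^ 2 ≤ Lam * hor x ∧ |x (Fin.last n)| ≤ ε},
      ‖MM (mj2 n lam Lam M t) (AL L (AL L f)) x‖ₑ ^ p ≤
      C1 * ∫⁻ v : Sp n, ∫⁻ x in {x : ℝ × ℝ | |x.2| ≤ ε}, ‖cv (KK2 t lam Lam M) (GT n L Lam f v) x‖ₑ ^ p *
        ENNReal.ofReal ((|x.1| + 1 / Lam) ^ (-β)) ∂volume ∂(sg n) := by
    intro t
    rw [hset]
    exact (hC1 L lam Lam M t A ε f {r : ℝ | 0 < r ∧ L ^ 2 ≤ Lam * r} hL hlam0 hLam0 hM0 hA hsL hR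
      (fun r hr => hr)).1
  have hsw := swap_int (lam := lam) (Lam := Lam) (M := M) (p := p) {x : ℝ × ℝ | |x.2| ≤ ε} (G := GT n L Lam f) gm
    (W := fun x => ENNReal.ofReal ((|x.1| + 1 / Lam) ^ (-β))) (W_meas Lam β)
  have hplane : ∀ v : Sp n, ∫⁻ t in Icc (1 : ℝ) 2, ∫⁻ x in {x : ℝ × ℝ | |x.2| ≤ ε},
      ‖cv (KK2 t lam Lam M) (GT n L Lam f v) x‖ₑ ^ p *
        ENNReal.ofReal ((|x.1| + 1 / Lam) ^ (-β)) ≤
      C4 * ENNReal.ofReal (lam ^ η * D ^ (-β) * (ε * lam / M) ^ γ * ((C2 + C3) * A1) ^ (p - 2)) *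
        (X v + P * Y v) := by
    intro v
    refine hC4 lam Lam M ((C2 + C3) * A1) D ε (GT n L Lam f v) (X v + P * Y v) hlam hLam hLL hM1
      hMM hLD1 hD64 (gm.comp measurable_prodMk_left) (gi v) ?_ ?_ ?_ ?_ hε
    · intro x
      refine (gb v x).trans ?_
      nlinarith
    · rw [hXe]
      exact le_self_add
    · intro x hx
      refine (hb v x hx).trans ?_
      apply div_le_div_of_nonneg_right _ (by positivity)
      nlinarith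
    · calc ∫⁻ x in {x : ℝ × ℝ | |x.1| ≤ D / 2}, ‖GT n L Lam f v x‖ₑ ^ 2
          = ENNReal.ofReal (1 / (Lam * D) ^ N) * (P * Y v) := by
            rw [← mul_assoc, hP, ← ENNReal.ofReal_mul (by positivity), one_div,
              inv_mul_cancel₀ (by positivity), ENNReal.ofReal_one, one_mul]
        _ ≤ ENNReal.ofReal (1 / (Lam * D) ^ N) * (X v + P * Y v) := by
            gcongr
            exact le_add_self
  calc ∫⁻ t in Icc (1 : ℝ) 2, ∫⁻ x in {x : EE (n + 1) | L ^ 2 ≤ Lam * hor x ∧ |x (Fin.last n)| ≤ ε},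
      ‖MM (mj2 n lam Lam M t) (AL L (AL L f)) x‖ₑ ^ p
      ≤ ∫⁻ t in Icc (1 : ℝ) 2, C1 * ∫⁻ v : Sp n, ∫⁻ x in {x : ℝ × ℝ | |x.2| ≤ ε},
        ‖cv (KK2 t lam Lam M) (GT n L Lam f v) x‖ₑ ^ p *
        ENNReal.ofReal ((|x.1| + 1 / Lam) ^ (-β)) ∂volume ∂(sg n) := lintegral_mono step1
    _ = C1 * ∫⁻ v : Sp n, ∫⁻ t in Icc (1 : ℝ) 2,
        ∫⁻ x in {x : ℝ × ℝ | |x.2| ≤ ε}, ‖cv (KK2 t lam Lam M) (GT n L Lam f v) x‖ₑ ^ p *
        ENNReal.ofReal ((|x.1| + 1 / Lam) ^ (-β)) ∂volume ∂volume ∂(sg n) := by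
        rw [lintegral_const_mul' _ _ ENNReal.coe_ne_top, hsw]
    _ ≤ C1 * ∫⁻ v : Sp n,
        C4 * ENNReal.ofReal (lam ^ η * D ^ (-β) * (ε * lam / M) ^ γ * ((C2 + C3) * A1) ^ (p - 2)) *
          (X v + P * Y v) ∂(sg n) := by
        gcongr with v
        exact hplane v
    _ = C1 * (C4 * ENNReal.ofReal (lam ^ η * D ^ (-β) * (ε * lam / M) ^ γ * ((C2 + C3) * A1) ^ (p - 2)) *
          ∫⁻ v : Sp n, (X v + P * Y v) ∂(sg n)) := by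
        rw [lintegral_const_mul' _ _ (ENNReal.mul_ne_top ENNReal.coe_ne_top
          ENNReal.ofReal_ne_top)]
    _ ≤ C1 * (C4 * ENNReal.ofReal (lam ^ η * D ^ (-β) * (ε * lam / M) ^ γ * ((C2 + C3) * A1) ^ (p - 2)) *
          ((ENNReal.ofReal C2 + ENNReal.ofReal C3) * ∫⁻ x, ‖f x‖ₑ ^ 2)) := by
        gcongr
    _ = (C1 * C4 * (ENNReal.ofReal C2 + ENNReal.ofReal C3)) * (ENNReal.ofReal (D ^ (-β)) *
        ENNReal.ofReal (lam ^ η * (ε * lam / M) ^ γ * ((C2 + C3) * A1) ^ (p - 2))) * ∫⁻ x, ‖f x‖ₑ ^ 2 := by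
        have e1 : ENNReal.ofReal (lam ^ η * D ^ (-β) * (ε * lam / M) ^ γ * ((C2 + C3) * A1) ^ (p - 2)) =
            ENNReal.ofReal (D ^ (-β)) *
              ENNReal.ofReal (lam ^ η * (ε * lam / M) ^ γ * ((C2 + C3) * A1) ^ (p - 2)) := by
          rw [← ENNReal.ofReal_mul (by positivity)]
          congr 1
          ring
        rw [e1]
        ring
    _ ≤ (C1 * C4 * (ENNReal.ofReal C2 + ENNReal.ofReal C3)) *
        ((Real.toNNReal (2 ^ β * (C2 + C3) ^ (p - 2)) : ℝ≥0∞) *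
        ENNReal.ofReal (lam ^ η * (ε * lam / M) ^ γ * A ^ (p - 2))) * ∫⁻ x, ‖f x‖ₑ ^ 2 := by
        have h9 := arith3 (b := (ε * lam / M) ^ γ) (D := D) (D' := 2 * D)
          (s := ((n : ℝ) - 1) / 2) (β := β) (A := A) (C2 := C2 + C3) (lam := lam) (η := η)
          (p := p) (by positivity) hD (by positivity) le_rfl hA0 (by positivity) hlam0 hβ0 hsβ
        gcongr
    _ = _ := by
        push_cast
        rw [show ENNReal.ofReal C2 = (Real.toNNReal C2 : ℝ≥0∞) from rfl,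
          show ENNReal.ofReal C3 = (Real.toNNReal C3 : ℝ≥0∞) from rfl]
        ring

/-! ### near the axis: summation -/

theorem near (hPA : T_PA2) (hWP : T_WP2) (hGO : T_GO) (hAM : T_AM) (n : ℕ) (p γ η : ℝ)
    (hn : 2 ≤ n) (hp2 : 2 < p) (hγ : 0 ≤ γ) (hng : (n : ℝ) * (p / 2 - 1) + γ ≤ 1) (hη : 0 < η) :
    ∃ C : ℝ≥0, ∀ (lam Lam M L A ε : ℝ) (f : EE (n + 1) → ℂ), 1 ≤ lam → 1 ≤ Lam → Lam ≤ 4 * lam →
    1 ≤ M → M ≤ 4 * lam → 1 ≤ L → L ^ 2 ≤ 8 * Lam → BCd A f → 1 / M ≤ ε →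
    (∀ x, f x ≠ 0 → L ^ 2 ≤ Lam * hor x ∧ hor x ≤ 24) →
    ∫⁻ t in Icc (1 : ℝ) 2, ∫⁻ x in {x : EE (n + 1) | L ^ 2 ≤ Lam * hor x ∧ |x (Fin.last n)| ≤ ε},
      ‖MM (mj2 n lam Lam M t) (AL L (AL L f)) x‖ₑ ^ p ≤
      C * ENNReal.ofReal (lam ^ η * (ε * lam / M) ^ γ * A ^ (p - 2)) * ∫⁻ x, ‖f x‖ₑ ^ 2 := by
  have hp0 : 0 ≤ p := by linarith
  obtain ⟨C5, hC5⟩ := near_piece hPA hWP hGO n p γ (η / 2) hn hp2 hγ hng (by linarith)
  obtain ⟨Cc, hCc⟩ := count (η := η / 2) (q := p + 1) (by linarith) (by linarith)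
  refine ⟨Cc * Real.toNNReal (48 ^ (η / 2)) * C5, ?_⟩
  intro lam Lam M L A ε f hlam hLam hLL hM1' hMM' hL hL8 hA hε hsupp
  have hlam0 : 0 < lam := by linarith
  have hM0' : 0 < M := by linarith
  have hε0 : 0 < ε := lt_of_lt_of_le (by positivity) hε
  have hb0 : 0 < ε * lam / M := by positivity
  have hLam0 : 0 < Lam := by linarith
  have hA0 : 0 ≤ A := bcd_nonneg hA
  have hL2 : (1 : ℝ) ≤ L ^ 2 := one_le_pow₀ hL
  set r0 : ℝ := L ^ 2 / Lam with hr0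
  have hr00 : 0 < r0 := by positivity
  have hr08 : r0 ≤ 8 := by
    rw [hr0, div_le_iff₀ hLam0]
    exact hL8
  have hLr : Lam * r0 = L ^ 2 := by
    rw [hr0]
    field_simp
  obtain ⟨J, hJ1, hJ2⟩ := exists_nat_pow_near (x := 24 / r0) (y := (2 : ℝ))
    (by rw [le_div_iff₀ hr00]; linarith) (by norm_num)
  rw [le_div_iff₀ hr00] at hJ1
  rw [div_lt_iff₀ hr00] at hJ2
  obtain ⟨M', hM1, hM2, hM3⟩ := hCc (48 * lam) (by linarith)
  have hJM : J ≤ M' := by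
    have h1 : (2 : ℝ) ^ J ≤ 2 ^ M' := by
      refine le_trans ?_ hM1
      have h2 : (2 : ℝ) ^ J * (Lam * r0) ≤ 24 * Lam := by
        calc (2 : ℝ) ^ J * (Lam * r0) = (2 ^ J * r0) * Lam := by ring
          _ ≤ 24 * Lam := mul_le_mul_of_nonneg_right hJ1 hLam0.le
      rw [hLr] at h2
      have h3 : (2 : ℝ) ^ J ≤ 2 ^ J * L ^ 2 := by
        have h4 : (0 : ℝ) < 2 ^ J := by positivity
        nlinarith
      linarith
    exact (pow_le_pow_iff_right₀ (by norm_num : (1 : ℝ) < 2)).mp h1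
  have hJc : ((J : ℝ) + 1) ^ (p + 1) ≤ (Cc : ℝ) * (48 ^ (η / 2) * lam ^ (η / 2)) := by
    rw [← Real.mul_rpow (by norm_num) hlam0.le]
    refine le_trans (Real.rpow_le_rpow (by positivity) ?_ (by linarith)) hM3
    have : (J : ℝ) ≤ M' := by exact_mod_cast hJM
    linarith
  have hn1 : 1 ≤ n := by omega
  set F : EE (n + 1) → ℂ := AL L (AL L f) with hF
  have hFb : BCd A F := AL_bcd hAM hn1 hL (AL_bcd hAM hn1 hL hA)
  have hFc : ∀ R : Set ℝ, cutR R F = AL L (AL L (cutR R f)) := by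
    intro R
    rw [AL_cut hAM hn1 hL R f, AL_cut hAM hn1 hL R (AL L f)]
  have hfcut : cutR (Ico r0 (2 ^ (J + 1) * r0)) f = f := by
    funext x
    unfold cutR
    by_cases h0 : f x = 0
    · by_cases hx : x ∈ {x | hor x ∈ Ico r0 ((2 : ℝ) ^ (J + 1) * r0)}
      · rw [indicator_of_mem hx]
      · rw [indicator_of_notMem hx, h0]
    · rw [indicator_of_mem]
      obtain ⟨h1, h2⟩ := hsupp x h0
      refine ⟨?_, lt_of_le_of_lt h2 hJ2⟩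
      rw [hr0, div_le_iff₀ hLam0]
      linarith
  have hdec : ∀ x, F x = ∑ j ∈ Finset.range (J + 1), cutR (shl r0 j) F x := by
    intro x
    rw [shl_sum hr00 F (J + 1) x, hFc, hfcut]
  have one : ∀ j ∈ Finset.range (J + 1),
      ∫⁻ t in Icc (1 : ℝ) 2, ∫⁻ x in {x : EE (n + 1) | L ^ 2 ≤ Lam * hor x ∧ |x (Fin.last n)| ≤ ε},
        ‖MM (mj2 n lam Lam M t) (cutR (shl r0 j) F) x‖ₑ ^ p ≤
        C5 * ENNReal.ofReal (lam ^ (η / 2) * (ε * lam / M) ^ γ * A ^ (p - 2)) * ∫⁻ x, ‖f x‖ₑ ^ 2 := by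
    intro j hj
    have hjJ : j ≤ J := by
      have := Finset.mem_range.mp hj
      omega
    rw [hFc]
    have h2j : (1 : ℝ) ≤ 2 ^ j := one_le_pow₀ (by norm_num)
    have hj2 : (2 : ℝ) ^ j ≤ 2 ^ J := pow_le_pow_right₀ (by norm_num) hjJ
    refine (hC5 lam Lam M L A (2 ^ j * r0) ε (cutR (shl r0 j) f) hlam hLam hLL hM1' hMM' hL
      (cut_bcd (shl_meas r0 j) hA) hε (by positivity) ?_ ?_ ?_).trans ?_
    · calc L ^ 2 = 1 * (Lam * r0) := by rw [hLr, one_mul]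
        _ ≤ 2 ^ j * (Lam * r0) := mul_le_mul_of_nonneg_right h2j (by positivity)
        _ = _ := by ring
    · have : (2 : ℝ) ^ j * r0 ≤ 2 ^ J * r0 := mul_le_mul_of_nonneg_right hj2 hr00.le
      linarith
    · intro x hx
      have h1 := (cut_supp hx).1
      refine ⟨h1.1, ?_⟩
      have h2 := h1.2.le
      rw [pow_succ] at h2
      linarith
    · exact mul_le_mul_right (cut_sq_le f) _
  have hsum : ∀ t x, ‖MM (mj2 n lam Lam M t) F x‖ₑ ^ p ≤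
      ((J + 1 : ℕ) : ℝ≥0∞) ^ p * ∑ j ∈ Finset.range (J + 1),
        ‖MM (mj2 n lam Lam M t) (cutR (shl r0 j) F) x‖ₑ ^ p := by
    intro t x
    rw [MM_sum2 hlam0 t hFb (J + 1) (shl r0) (shl_meas r0) hdec x]
    exact (ENNReal.rpow_le_rpow (enorm_sum_le _ _) hp0).trans
      (fin_sum_pow (by linarith) (J + 1) _)
  have hNt : ((J + 1 : ℕ) : ℝ≥0∞) ^ p ≠ ⊤ :=
    ENNReal.rpow_ne_top_of_nonneg hp0 (ENNReal.natCast_ne_top _)
  calc ∫⁻ t in Icc (1 : ℝ) 2, ∫⁻ x in {x : EE (n + 1) | L ^ 2 ≤ Lam * hor x ∧ |x (Fin.last n)| ≤ ε},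
        ‖MM (mj2 n lam Lam M t) F x‖ₑ ^ p
      ≤ ∫⁻ t in Icc (1 : ℝ) 2, ∫⁻ x in {x : EE (n + 1) | L ^ 2 ≤ Lam * hor x ∧ |x (Fin.last n)| ≤ ε},
        ((J + 1 : ℕ) : ℝ≥0∞) ^ p * ∑ j ∈ Finset.range (J + 1),
        ‖MM (mj2 n lam Lam M t) (cutR (shl r0 j) F) x‖ₑ ^ p :=
        lintegral_mono fun t => lintegral_mono fun x => hsum t x
    _ = ((J + 1 : ℕ) : ℝ≥0∞) ^ p * ∑ j ∈ Finset.range (J + 1),
        ∫⁻ t in Icc (1 : ℝ) 2, ∫⁻ x in {x : EE (n + 1) | L ^ 2 ≤ Lam * hor x ∧ |x (Fin.last n)| ≤ ε},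
          ‖MM (mj2 n lam Lam M t) (cutR (shl r0 j) F) x‖ₑ ^ p :=
        int_sum_set {x : EE (n + 1) | L ^ 2 ≤ Lam * hor x ∧ |x (Fin.last n)| ≤ ε} (fun j t x =>
          ‖MM (mj2 n lam Lam M t) (cutR (shl r0 j) F) x‖ₑ ^ p)
          (fun j => MM_meas_cut hFb (shl_meas r0 j)) (J + 1) _ hNt
    _ ≤ ((J + 1 : ℕ) : ℝ≥0∞) ^ p * ∑ j ∈ Finset.range (J + 1),
        (C5 * ENNReal.ofReal (lam ^ (η / 2) * (ε * lam / M) ^ γ * A ^ (p - 2)) * ∫⁻ x, ‖f x‖ₑ ^ 2) := by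
        gcongr with j hj
        exact one j hj
    _ = (((J + 1 : ℕ) : ℝ≥0∞) ^ p * ((J + 1 : ℕ) : ℝ≥0∞)) *
        (C5 * ENNReal.ofReal (lam ^ (η / 2) * (ε * lam / M) ^ γ * A ^ (p - 2)) * ∫⁻ x, ‖f x‖ₑ ^ 2) := by
        rw [Finset.sum_const, Finset.card_range, nsmul_eq_mul]
        ring
    _ ≤ ((Cc * Real.toNNReal (48 ^ (η / 2)) : ℝ≥0) * ENNReal.ofReal (lam ^ (η / 2))) *
        (C5 * ENNReal.ofReal (lam ^ (η / 2) * (ε * lam / M) ^ γ * A ^ (p - 2)) * ∫⁻ x, ‖f x‖ₑ ^ 2) := by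
        refine mul_le_mul_left ?_ _
        have h9 : ((J + 1 : ℕ) : ℝ≥0∞) ^ p * ((J + 1 : ℕ) : ℝ≥0∞) =
            ENNReal.ofReal (((J : ℝ) + 1) ^ (p + 1)) := by
          have h10 : ((J + 1 : ℕ) : ℝ≥0∞) = ENNReal.ofReal ((J : ℝ) + 1) := by
            rw [← ENNReal.ofReal_natCast]
            push_cast
            rfl
          rw [h10, ENNReal.ofReal_rpow_of_pos (by positivity), ← ENNReal.ofReal_mul (by positivity),
            Real.rpow_add_one (by positivity)]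
        rw [h9]
        have h11 : ((Cc * Real.toNNReal (48 ^ (η / 2)) : ℝ≥0) : ℝ≥0∞) *
            ENNReal.ofReal (lam ^ (η / 2)) =
            ENNReal.ofReal ((Cc : ℝ) * (48 ^ (η / 2) * lam ^ (η / 2))) := by
          rw [ENNReal.ofReal_mul (by positivity), ENNReal.ofReal_mul (by positivity),
            ENNReal.ofReal_coe_nnreal]
          push_cast
          rw [mul_assoc]
          rfl
        rw [h11]
        exact ENNReal.ofReal_le_ofReal hJc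
    _ = (Cc * Real.toNNReal (48 ^ (η / 2)) * C5 : ℝ≥0) *
        ENNReal.ofReal (lam ^ η * (ε * lam / M) ^ γ * A ^ (p - 2)) * ∫⁻ x, ‖f x‖ₑ ^ 2 := by
        have h12 : ENNReal.ofReal (lam ^ η * (ε * lam / M) ^ γ * A ^ (p - 2)) =
            ENNReal.ofReal (lam ^ (η / 2)) *
              ENNReal.ofReal (lam ^ (η / 2) * (ε * lam / M) ^ γ * A ^ (p - 2)) := by
          rw [← ENNReal.ofReal_mul (by positivity)]
          congr 1
          rw [← mul_assoc, ← mul_assoc, ← Real.rpow_add hlam0]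
          congr 3
          ring
        rw [h12]
        push_cast
        ring


/-- PG2 -/
theorem pf_pg2 (hPA : T_PA2) (hWP : T_WP2) (hS : T_S22) (hGO : T_GO) (hAM : T_AM) : T_PG2 := by
  intro n p γ η hn hp2 hγ hng hη
  obtain ⟨Ca, hCa⟩ := near hPA hWP hGO hAM n p γ η hn hp2 hγ hng hη
  obtain ⟨Cb, hCb⟩ := far hPA hS hGO n p γ η hn hp2 hγ hng hη
  refine ⟨Ca + Cb, ?_⟩
  intro lam Lam M L A ε f hlam hLam hLL hM hMM hL hL8 hA hε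
  constructor
  · intro hsupp
    refine (hCa lam Lam M L A ε f hlam hLam hLL hM hMM hL hL8 hA hε hsupp).trans ?_
    push_cast
    gcongr
    exact le_self_add
  · intro i hi hsupp
    refine (hCb lam Lam M L A ε f hlam hLam hLL hM hMM hL hL8 hA hε i hi hsupp).trans ?_
    push_cast
    gcongr
    exact le_add_self

end Pool.Agent.H84.BR.PG2m
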