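import Pool.Agent.H84.BR.MCB

/-!
Sum over the blocks of the first variable (MP_ee74d2_an, stage 2).
-/

set_option autoImplicit false

namespace Pool.Agent.H84.BR

open MeasureTheory Set FourierTransform
open Pool.Agent.H83.LS Pool.Agent.H93.AR Pool.Agent.H54.LS Pool.Agent.H83.AR
open Pool.Agent.H84.B2
open scoped ENNReal NNReal

section

variable {a b : ℕ} {L : ℝ} (hAQP : T_AQP) (ha : 1 ≤ a) (hb : 1 ≤ b) (hL : 1 ≤ L)

include hAQP ha hb hL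

theorem AQ_BI {A : ℝ} {f : EE (a + b) → ℂ} (hf : BI A f) : BI A (AQ a b L f) := by
  obtain ⟨q1, q2, -, q4, -⟩ := hAQP a b L ha hb hL
  exact ⟨q1 f hf.1, q4 f hf.1 hf.2.1, q2 f A hf.1 hf.2.2⟩

theorem AQ_L2 {A : ℝ} {f : EE (a + b) → ℂ} (hf : BI A f) :
    ∫⁻ x, ‖AQ a b L f x‖ₑ ^ 2 ≤ ∫⁻ x, ‖f x‖ₑ ^ 2 := by
  obtain ⟨-, -, q3, -⟩ := hAQP a b L ha hb hL
  have h := q3 f 2 hf.1 (by norm_num)
  simpa only [ENNReal.rpow_two] using h

theorem AQ_add {A : ℝ} {f g h : EE (a + b) → ℂ} (hf : BI A f) (hh : BI A h)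
    (hs : ∀ x, f x = g x + h x) (x : EE (a + b)) :
    AQ a b L f x = AQ a b L g x + AQ a b L h x := by
  obtain ⟨-, -, -, -, -, q6, -⟩ := hAQP a b L ha hb hL
  have h1 := q6 f h hf.1 hh.1 ⟨A, hf.2.2⟩ ⟨A, hh.2.2⟩ x
  have h2 : (fun x => f x - h x) = g := by
    funext y
    rw [hs y]; ring
  rw [h2] at h1
  rw [h1]; ring

/-- supports which depend on the norms of the blocks are preserved -/
theorem AQ_supp {A : ℝ} {f : EE (a + b) → ℂ} (hf : BI A f) (S : Set (ℝ × ℝ))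
    (hS : ∀ x, f x ≠ 0 → (‖p1 a b x‖, ‖p2 a b x‖) ∈ S) (x : EE (a + b))
    (hx : AQ a b L f x ≠ 0) : (‖p1 a b x‖, ‖p2 a b x‖) ∈ S := by
  classical
  obtain ⟨-, -, -, -, q5, -⟩ := hAQP a b L ha hb hL
  have h1 := q5 f (fun u v => if (u, v) ∈ S then 1 else 0) hf.1 ⟨A, hf.2.2⟩ x
  have h2 : (fun x => (if (‖p1 a b x‖, ‖p2 a b x‖) ∈ S then (1 : ℂ) else 0) * f x) = f := by
    funext y
    by_cases hy : f y = 0
    · rw [hy, mul_zero]
    · rw [if_pos (hS y hy), one_mul]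
  rw [h2] at h1
  by_contra hn
  rw [if_neg hn, zero_mul] at h1
  exact hx h1

end

theorem pf_rem (hJB : T_JB) (hAQP : T_AQP) (hTR : T_TR) (hGG1 : T_GG1) : T_REM := by
  classical
  intro a b p η ha hb hp hpd hη
  have ha1 : 1 ≤ a := by omega
  have hb1 : 1 ≤ b := by omega
  obtain ⟨C₁, hC₁⟩ := hTR a b p ha hb hp hpd
  obtain ⟨C₂, hC₂⟩ := hGG1 a b p (η / 2) ha hb hp hpd (by positivity)
  obtain ⟨C₃, hC₃⟩ := block (d := a + b) (p := p) (η := η / 2) hp (by positivity)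
  refine ⟨C₃ * (C₁ + C₂), ?_⟩
  intro lam L A Lam₂ c₂ j f hL hL2 hLam₂ hLam₂' hj hj0 hj1 hf hj2
  have hl : 1 ≤ lam := by nlinarith
  have hl0 : 0 < lam := by linarith
  have hsq : L ≤ Real.sqrt lam := Real.le_sqrt_of_sq_le hL2
  have hsq1 : Real.sqrt lam * Real.sqrt lam = lam := Real.mul_self_sqrt hl0.le
  have hsq0 : 1 ≤ Real.sqrt lam := hL.trans hsq
  have hLam₂0 : 0 < Lam₂ := by nlinarith
  have hlη : (1 : ℝ) ≤ lam ^ (η / 2) := Real.one_le_rpow hl (by positivity)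
  have hc₂ : CT Lam₂ c₂ := by
    by_cases h : j = 0
    · exact Or.inl (hj0 h).2
    · exact Or.inr (hj1 h)
  have hc₂m : Measurable c₂ := by
    rcases hc₂ with h | h
    · rw [show c₂ = fun s => eta0 (s / Lam₂) from funext h]
      exact Pool.Agent.H14.LS.eta0_smooth.continuous.measurable.comp (measurable_id.div_const _)
    · rw [show c₂ = fun s => chi (s / Lam₂) from funext h]
      exact (Pool.Agent.H19.LS.chi_smooth.continuous.measurable).comp (measurable_id.div_const _)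
  have hc₂1 : ∀ s, |c₂ s| ≤ 1 := by
    intro s
    rcases hc₂ with h | h
    · rw [h s, abs_of_nonneg (Pool.Agent.H14.LS.eta0_nonneg _)]
      exact Pool.Agent.H14.LS.eta0_le_one _
    · rw [h s]
      exact Pool.Agent.H19.LS.chi_abs _
  have hsym : Sym lam (mc a b (fun _ => 1) c₂ lam) :=
    sym_mc (fun _ => 1) c₂ lam measurable_const hc₂m (fun _ => by norm_num) hc₂1 hJB hl0
  have hp1c : Continuous (p1 a b) := (hJB a b).2.2.1
  have hinn := (hJB a b).2.2.2.2.2.2.1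
  have hp1n : ∀ ξ, ‖p1 a b ξ‖ ≤ ‖ξ‖ := by
    intro ξ
    have h1 := hinn ξ ξ
    rw [real_inner_self_eq_norm_sq, real_inner_self_eq_norm_sq, real_inner_self_eq_norm_sq] at h1
    nlinarith [norm_nonneg (p1 a b ξ), norm_nonneg ξ, sq_nonneg ‖p2 a b ξ‖,
      abs_le_of_sq_le_sq' (show ‖p1 a b ξ‖ ^ 2 ≤ ‖ξ‖ ^ 2 by nlinarith [sq_nonneg ‖p2 a b ξ‖])
        (norm_nonneg ξ)]
  have heq : ∀ (c : ℝ → ℝ) (t : ℝ),
      (fun ξ => mc a b (fun _ => 1) c₂ lam t ξ * ((c ‖p1 a b ξ‖ : ℝ) : ℂ)) =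
        mc a b c c₂ lam t := by
    intro c t
    funext ξ
    unfold mc
    push_cast
    ring
  set B : ℝ≥0∞ := ((C₁ + C₂ : ℝ≥0) : ℝ≥0∞) * ENNReal.ofReal (L ^ 2 * lam ^ (η / 2) * A ^ (p - 2))
    with hBd
  have hA : 0 ≤ A := (norm_nonneg _).trans (hf.2.2 0)
  have hB1 : (C₁ : ℝ≥0∞) * ENNReal.ofReal (L ^ 2 * A ^ (p - 2)) ≤ B := by
    apply mul_le_mul'
    · exact_mod_cast (le_self_add : C₁ ≤ C₁ + C₂)
    · apply ENNReal.ofReal_le_ofReal
      have h3 : 0 ≤ A ^ (p - 2) := Real.rpow_nonneg hA _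
      have h4 : 0 ≤ L ^ 2 * A ^ (p - 2) := by positivity
      calc L ^ 2 * A ^ (p - 2) ≤ (L ^ 2 * A ^ (p - 2)) * lam ^ (η / 2) := by
            nlinarith
        _ = _ := by ring
  have hB2 : (C₂ : ℝ≥0∞) * ENNReal.ofReal (L ^ 2 * lam ^ (η / 2) * A ^ (p - 2)) ≤ B := by
    apply mul_le_mul' _ le_rfl
    exact_mod_cast (le_add_self : C₂ ≤ C₁ + C₂)
  have hsub2 : ∀ g : EE (a + b) → ℂ, (∀ x, g x ≠ 0 → f x ≠ 0) → BI A g → j = 2 → ∀ x,
      AQ a b L g x ≠ 0 → Lam₂ * ‖p2 a b x‖ ≤ L ^ 2 := by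
    intro g hg hgB h2 x hx
    exact AQ_supp hAQP ha1 hb1 hL hgB {q : ℝ × ℝ | Lam₂ * q.2 ≤ L ^ 2}
      (fun y hy => hj2 h2 y (hg y hy)) x hx
  have hfin := hC₃ lam L A (mc a b (fun _ => 1) c₂ lam) (fun x => ‖p1 a b x‖) (AQ a b L)
    {x | Rg j L Lam₂ ‖p2 a b x‖} B f hL hL2 hsym hp1c.norm.measurable hp1n hf
    (fun g hg => (AQ_BI hAQP ha1 hb1 hL hg).2.1)
    (fun g h hg hh hs => AQ_add hAQP ha1 hb1 hL hf hh hs) ?_ ?_ ?_ ?_
  · refine hfin.trans (le_of_eq ?_)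
    rw [hBd, ENNReal.coe_mul]
    have h7 : ENNReal.ofReal (L ^ 2 * lam ^ η * A ^ (p - 2)) =
        ENNReal.ofReal (lam ^ (η / 2)) *
          ENNReal.ofReal (L ^ 2 * lam ^ (η / 2) * A ^ (p - 2)) := by
      rw [← ENNReal.ofReal_mul (by positivity)]
      congr 1
      have h8 : lam ^ η = lam ^ (η / 2) * lam ^ (η / 2) := by
        rw [← Real.rpow_add hl0]; congr 1; ring
      rw [h8]; ring
    rw [h7]
    ring
  · -- low frequencies in the first block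
    simp only [heq (fun s => eta0 (s / (L * Real.sqrt lam)))]
    have h := hC₁ lam L A (L * Real.sqrt lam) Lam₂ (fun s => eta0 (s / (L * Real.sqrt lam))) c₂ 0 j
      (AQ a b L f) hL hL2 le_rfl (by nlinarith) hLam₂ hLam₂' (by omega) hj
      (fun _ => ⟨rfl, fun _ => rfl⟩) (fun h => absurd rfl h) hj0 hj1
      (AQ_BI hAQP ha1 hb1 hL hf) (fun h => by omega)
      (fun h2 => hsub2 f (fun _ h => h) hf h2)
    refine (J_monoE ?_ _).trans (h.trans ?_)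
    · intro x hx
      exact ⟨fun h => absurd h (by norm_num), hx⟩
    · exact mul_le_mul' hB1 (AQ_L2 hAQP ha1 hb1 hL hf)
  · intro Lam g hg1 hg2 hgB hgf hgs
    simp only [heq (fun s => chi (s / Lam))]
    have h := hC₁ lam L A Lam Lam₂ (fun s => chi (s / Lam)) c₂ 2 j
      (AQ a b L g) hL hL2 hg1 hg2 hLam₂ hLam₂' le_rfl hj
      (fun h => by omega) (fun _ _ => rfl) hj0 hj1
      (AQ_BI hAQP ha1 hb1 hL hgB)
      (fun _ x hx => AQ_supp hAQP ha1 hb1 hL hgB {q : ℝ × ℝ | Lam * q.1 ≤ L ^ 2} hgs x hx)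
      (fun h2 => hsub2 g hgf hgB h2)
    refine (J_monoE ?_ _).trans (h.trans ?_)
    · intro x hx
      exact ⟨fun h => absurd h (by norm_num), hx⟩
    · exact mul_le_mul' hB1 (AQ_L2 hAQP ha1 hb1 hL hgB)
  · intro Lam g hg1 hg2 hgB hgf
    simp only [heq (fun s => chi (s / Lam))]
    have h := hC₁ lam L A Lam Lam₂ (fun s => chi (s / Lam)) c₂ 1 j
      (AQ a b L g) hL hL2 hg1 hg2 hLam₂ hLam₂' (by omega) hj
      (fun h => by omega) (fun _ _ => rfl) hj0 hj1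
      (AQ_BI hAQP ha1 hb1 hL hgB) (fun h => by omega)
      (fun h2 => hsub2 g hgf hgB h2)
    refine (J_monoE ?_ _).trans (h.trans ?_)
    · intro x hx
      exact ⟨fun _ => hx.2, hx.1⟩
    · exact mul_le_mul' hB1 (AQ_L2 hAQP ha1 hb1 hL hgB)
  · intro Lam g hg1 hg2 hgB hgs
    simp only [heq (fun s => chi (s / Lam))]
    have hLam0 : 0 < Lam := by nlinarith
    have h := hC₂ lam Lam L A Lam₂ c₂ g hL hl (by
        calc L ^ 2 * lam = (L * Real.sqrt lam) ^ 2 := by rw [mul_pow, Real.sq_sqrt hl0.le]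
          _ ≤ Lam ^ 2 := pow_le_pow_left₀ (by positivity) hg1 2) hLam0 hg2 hLam₂0 hc₂ hgB hgs
    exact h.trans (mul_le_mul' hB2 le_rfl)

end Pool.Agent.H84.BR
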