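import Pool.Agent.H83.LS.Chain2
import Pool.Agent.H11.BR.CKB
import Pool.Agent.H11.BR.CX1
import Pool.Agent.H12.AR.CP
import Pool.Agent.H12.AR.GN
import Pool.Agent.H12.BR.CAP
import Pool.Agent.H12.BR.PI2
import Pool.Agent.H12.BR.RBm
import Pool.Agent.H12.BR.SU
import Pool.Agent.H14.BR.GO
import Pool.Agent.H14.BR.KW
import Pool.Agent.H17.BR.FD
import Pool.Agent.H18.BR.CGA
import Pool.Agent.H18.BR.CKA
import Pool.Agent.H20.BR.BL1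
import Pool.Agent.H20.BR.FX
import Pool.Agent.H27.BR.SV2
import Pool.Agent.H3.BR.AQS
import Pool.Agent.H3.BR.QM
import Pool.Agent.H31.BR.AF
import Pool.Agent.H31.BR.KS
import Pool.Agent.H33.AR.RB
import Pool.Agent.H33.AR.RO
import Pool.Agent.H33.AR.RO2
import Pool.Agent.H33.AR.ZC
import Pool.Agent.H33.BR.GGG
import Pool.Agent.H33.BR.SAK
import Pool.Agent.H34.BR.CSL
import Pool.Agent.H34.BR.HG2
import Pool.Agent.H34.BR.SV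
import Pool.Agent.H35.BR.PG
import Pool.Agent.H35.BR.ROT2
import Pool.Agent.H35.BR.ST2
import Pool.Agent.H4.BR.RA
import Pool.Agent.H42.BR.LI2
import Pool.Agent.H42.BR.PA
import Pool.Agent.H42.BR.PA2
import Pool.Agent.H42.BR.PAm
import Pool.Agent.H42.BR.SWF
import Pool.Agent.H47.BR.PI
import Pool.Agent.H47.BR.ST
import Pool.Agent.H47.BR.WP
import Pool.Agent.H47.BR.WP2
import Pool.Agent.H48.BR.AQP
import Pool.Agent.H48.BR.GG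
import Pool.Agent.H50.BR.CKP
import Pool.Agent.H51.BR.AD2
import Pool.Agent.H51.BR.DK
import Pool.Agent.H54.BR.AM2
import Pool.Agent.H54.BR.CPZ
import Pool.Agent.H54.BR.GMB
import Pool.Agent.H59.BR.SBL
import Pool.Agent.H60.BR.BZ
import Pool.Agent.H60.BR.HG1
import Pool.Agent.H60.BR.QD
import Pool.Agent.H60.BR.SUI
import Pool.Agent.H60.BR.TE2
import Pool.Agent.H60.BR.TZ
import Pool.Agent.H62.BR.CY
import Pool.Agent.H62.BR.CZ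
import Pool.Agent.H62.BR.MA
import Pool.Agent.H62.BR.S1
import Pool.Agent.H62.BR.S22
import Pool.Agent.H65.BR.RAm
import Pool.Agent.H65.BR.ROm
import Pool.Agent.H65.BR.ZB
import Pool.Agent.H65.BR.ZN
import Pool.Agent.H66.BR.CCA
import Pool.Agent.H66.BR.CV2
import Pool.Agent.H67.BR.CV1
import Pool.Agent.H67.BR.GG1
import Pool.Agent.H67.BR.KPC
import Pool.Agent.H67.BR.LI
import Pool.Agent.H67.BR.MAI
import Pool.Agent.H69.BR.AD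
import Pool.Agent.H69.BR.CKL
import Pool.Agent.H69.BR.FN2
import Pool.Agent.H71.BR.FN1
import Pool.Agent.H71.BR.JM
import Pool.Agent.H71.BR.PK
import Pool.Agent.H73.BR.GC
import Pool.Agent.H73.BR.JB
import Pool.Agent.H73.BR.KF
import Pool.Agent.H73.BR.WPm
import Pool.Agent.H74.BR.CL1
import Pool.Agent.H74.BR.CSW
import Pool.Agent.H74.BR.PL1
import Pool.Agent.H74.BR.TE
import Pool.Agent.H79.BR.CSC
import Pool.Agent.H79.BR.CTE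
import Pool.Agent.H83.AR.Bridge2
import Pool.Agent.H83.AR.MAL
import Pool.Agent.H84.BR.END1
import Pool.Agent.H84.BR.GAQ
import Pool.Agent.H84.BR.MA2
import Pool.Agent.H84.BR.PG2
import Pool.Agent.H84.BR.REM
import Pool.Agent.H84.BR.SG
import Pool.Agent.H86.AR.AC
import Pool.Agent.H86.AR.AM
import Pool.Agent.H86.AR.KZ
import Pool.Agent.H86.AR.ZA
import Pool.Agent.H86.B2.BL2
import Pool.Agent.H86.BR.CTT
import Pool.Agent.H87.BR.CX2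
import Pool.Agent.H87.BR.RB2
import Pool.Agent.H89.BR.BU
import Pool.Agent.H91.BR.SI
import Pool.Agent.H91.BR.ZP
import Pool.Agent.H93.BR.AC2
import Pool.Agent.H93.BR.AM1
import Pool.Agent.H93.BR.TR

/-!
Local smoothing with the fraction `2/p` of an angular derivative (MP_ee74d2_an): assembly.
-/

set_option autoImplicit false

namespace Pool.Agent.H84.BR.Two

theorem tCP : Pool.Agent.H93.AR.T_CP :=
  Pool.Agent.H12.AR.pf_cp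
theorem tDK : Pool.Agent.H93.AR.T_DK :=
  Pool.Agent.H51.BR.pf_dk
theorem tGN : Pool.Agent.H93.AR.T_GN :=
  Pool.Agent.H12.AR.pf_gn
theorem tSBL : Pool.Agent.H93.AR.T_SBL :=
  Pool.Agent.H59.BR.pf_sbl
theorem tSI : Pool.Agent.H93.AR.T_SI :=
  Pool.Agent.H91.BR.pf_si
theorem tZA : Pool.Agent.H93.AR.T_ZA :=
  Pool.Agent.H86.AR.pf_za tCP
theorem tZB : Pool.Agent.H93.AR.T_ZB :=
  Pool.Agent.H65.BR.pf_zb
theorem tZC : Pool.Agent.H93.AR.T_ZC :=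
  Pool.Agent.H33.AR.pf_zc tSI
theorem tZP : Pool.Agent.H93.AR.T_ZP :=
  Pool.Agent.H91.BR.pf_zp
theorem tBZ : Pool.Agent.H83.AR.T_BZ :=
  Pool.Agent.H60.BR.pf_bz tSBL
theorem tST : Pool.Agent.H83.AR.T_ST :=
  Pool.Agent.H47.BR.pf_st Pool.Agent.H83.LS.Chain.s2d Pool.Agent.H83.LS.Chain.kl1 Pool.Agent.H83.LS.Chain.yg
theorem tWP : Pool.Agent.H83.AR.T_WP :=
  Pool.Agent.H47.BR.pf_wp tST Pool.Agent.H83.LS.Chain.s2d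
theorem tCCA : Pool.Agent.H79.BR.T_CCA :=
  Pool.Agent.H66.BR.pf_cca tSBL
theorem tCGA : Pool.Agent.H79.BR.T_CGA :=
  Pool.Agent.H18.BR.pf_cga
theorem tCKA : Pool.Agent.H79.BR.T_CKA :=
  Pool.Agent.H18.BR.pf_cka tCP
theorem tCKP : Pool.Agent.H79.BR.T_CKP :=
  Pool.Agent.H50.BR.pf_ckp
theorem tCPZ : Pool.Agent.H79.BR.T_CPZ :=
  Pool.Agent.H54.BR.pf_cpz
theorem tCSC : Pool.Agent.H79.BR.T_CSC :=
  Pool.Agent.H79.BR.pf_csc tSBL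
theorem tCSL : Pool.Agent.H79.BR.T_CSL :=
  Pool.Agent.H34.BR.pf_csl
theorem tCTT : Pool.Agent.H79.BR.T_CTT :=
  Pool.Agent.H86.BR.pf_ctt
theorem tCV1 : Pool.Agent.H79.BR.T_CV1 :=
  Pool.Agent.H67.BR.pf_cv1 tCSL
theorem tCV2 : Pool.Agent.H79.BR.T_CV2 :=
  Pool.Agent.H66.BR.pf_cv2 tCSL tSBL
theorem tCX1 : Pool.Agent.H79.BR.T_CX1 :=
  Pool.Agent.H11.BR.pf_cx1 Pool.Agent.H83.LS.Chain.kbv
theorem tCX2 : Pool.Agent.H79.BR.T_CX2 :=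
  Pool.Agent.H87.BR.pf_cx2 Pool.Agent.H83.LS.Chain.kbv Pool.Agent.H83.LS.Chain.spl
theorem tFX : Pool.Agent.H93.AR.T_FX :=
  Pool.Agent.H20.BR.pf_fx Pool.Agent.H83.LS.Chain.marc Pool.Agent.H83.LS.Chain.radl Pool.Agent.H83.LS.Chain.ple
theorem tCY : Pool.Agent.H83.AR.T_CY :=
  Pool.Agent.H62.BR.pf_cy Pool.Agent.H83.LS.Chain.yg
theorem tS22 : Pool.Agent.H83.AR.T_S22 :=
  Pool.Agent.H62.BR.pf_s22 tCY Pool.Agent.H83.LS.Chain.s2d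
theorem tST2 : Pool.Agent.H83.AR.T_ST2 :=
  Pool.Agent.H35.BR.pf_st2 tS22 tCY Pool.Agent.H83.LS.Chain.kl1 Pool.Agent.H83.LS.Chain.yg
theorem tTZ : Pool.Agent.H83.AR.T_TZ :=
  Pool.Agent.H60.BR.pf_tz
theorem tWP2 : Pool.Agent.H83.AR.T_WP2 :=
  Pool.Agent.H47.BR.pf_wp2 tST2 tS22
theorem tJM : Pool.Agent.H83.AR.T_JM :=
  Pool.Agent.H71.BR.pf_jm
theorem tSWF : Pool.Agent.H83.AR.T_SWF :=
  Pool.Agent.H42.BR.pf_swf tJM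
theorem tCAP : Pool.Agent.H84.B2.T_CAP :=
  Pool.Agent.H12.BR.pf_cap tSBL
theorem tPK : Pool.Agent.H84.B2.T_PK :=
  Pool.Agent.H71.BR.pf_pk
theorem tPL1 : Pool.Agent.H84.B2.T_PL1 :=
  Pool.Agent.H74.BR.pf_pl1 tJM
theorem tQD : Pool.Agent.H84.B2.T_QD :=
  Pool.Agent.H60.BR.pf_qd tCSL
theorem tQM : Pool.Agent.H84.B2.T_QM :=
  Pool.Agent.H3.BR.pf_qm tJM
theorem tROT2 : Pool.Agent.H84.B2.T_ROT2 :=
  Pool.Agent.H35.BR.pf_rot2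
theorem tSAK : Pool.Agent.H84.B2.T_SAK :=
  Pool.Agent.H33.BR.pf_sak tCP
theorem tTE2 : Pool.Agent.H84.B2.T_TE2 :=
  Pool.Agent.H60.BR.pf_te2 tCTT tCGA tCSC tPL1 tJM
theorem tBU : Pool.Agent.H93.AR.T_BU :=
  Pool.Agent.H89.BR.pf_bu tDK tCP tGN tSI
theorem tKS : Pool.Agent.H93.AR.T_KS :=
  Pool.Agent.H31.BR.pf_ks tBU tSBL tSI
theorem tKZ : Pool.Agent.H93.AR.T_KZ :=
  Pool.Agent.H86.AR.pf_kz tKS tZA tZB
theorem tZN : Pool.Agent.H93.AR.T_ZN :=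
  Pool.Agent.H65.BR.pf_zn tZP
theorem tKW : Pool.Agent.H83.AR.T_KW :=
  Pool.Agent.H14.BR.pf_kw tKZ
theorem tCKB : Pool.Agent.H79.BR.T_CKB :=
  Pool.Agent.H11.BR.pf_ckb tCKA tCKP tKS
theorem tCKL : Pool.Agent.H79.BR.T_CKL :=
  Pool.Agent.H69.BRC.pf_ckl tCKP Pool.Agent.H83.LS.Chain.kbv
theorem tCL1 : Pool.Agent.H79.BR.T_CL1 :=
  Pool.Agent.H74.BR.pf_cl1 tCKB tCKL tCX1 tCX2 tCCA
theorem tCSW : Pool.Agent.H79.BR.T_CSW :=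
  Pool.Agent.H74.BR.pf_csw tCKB tCKL tCX1 tCX2 tCL1 tCV1 tCV2
theorem tCTE : Pool.Agent.H79.BR.T_CTE :=
  Pool.Agent.H79.BR.pf_cte tCTT tCGA tCSC
theorem tSU : Pool.Agent.H83.AR.T_SU :=
  Pool.Agent.H12.BR.pf_su tCL1 Pool.Agent.H83.LS.Chain.ple
theorem tSV : Pool.Agent.H83.AR.T_SV :=
  Pool.Agent.H34.BR.pf_sv tCSW Pool.Agent.H83.LS.Chain.ple
theorem tTE : Pool.Agent.H83.AR.T_TE :=
  Pool.Agent.H74.BR.pf_te tCTE tCPZ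
theorem tCZ : Pool.Agent.H83.AR.T_CZ :=
  Pool.Agent.H62.BR.pf_cz tZB tZN Pool.Agent.H83.LS.Chain.yg
theorem tFD : Pool.Agent.H83.AR.T_FD :=
  Pool.Agent.H17.BR.pf_fd tKS
theorem tJB : Pool.Agent.H93.AR.T_JB :=
  Pool.Agent.H73.BR.pf_jb tJM
theorem tAS : Pool.Agent.H93.AR.T_AS :=
  Pool.Agent.H73.BR.pf_as tJB
theorem tGC : Pool.Agent.H83.AR.T_GC :=
  Pool.Agent.H73.BR.pf_gc tKW tZB tZN tJM
theorem tGMB : Pool.Agent.H83.AR.T_GMB :=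
  Pool.Agent.H54.BR.pf_gmb tKW tBZ Pool.Agent.H83.LS.Chain.yg tZB tJM
theorem tKPC : Pool.Agent.H84.B2.T_KPC :=
  Pool.Agent.H67.BR.pf_kpc tSAK tPK tKS Pool.Agent.H83.LS.Chain.kbv
theorem tSV2 : Pool.Agent.H84.B2.T_SV2 :=
  Pool.Agent.H27.BR.pf_sv2 tKPC tCAP tQD tJM Pool.Agent.H83.LS.Chain.ple
theorem tTR : Pool.Agent.H84.B2.T_TR :=
  Pool.Agent.H93.BR.pf_tr tSV2 tTE2 tSWF tJM Pool.Agent.H83.LS.Chain.ple
theorem tAC : Pool.Agent.H93.AR.T_AC :=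
  Pool.Agent.H86.AR.pf_ac tZC tZB tZN
theorem tAD : Pool.Agent.H93.AR.T_AD :=
  Pool.Agent.H69.BR.pf_ad tZP tZN tZB
theorem tAM : Pool.Agent.H93.AR.T_AM :=
  Pool.Agent.H86.AR.pf_am tZN tZB
theorem tGO : Pool.Agent.H83.AR.T_GO :=
  Pool.Agent.H14.BR.pf_go tKW tBZ Pool.Agent.H83.LS.Chain.yg tZB
theorem tRA : Pool.Agent.H83.AR.T_RA :=
  Pool.Agent.H4.BR.pf_ra tKW tZB tAM
theorem tLI : Pool.Agent.H83.AR.T_LI :=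
  Pool.Agent.H67.BR.pf_li tAM
theorem tSUI : Pool.Agent.H83.AR.T_SUI :=
  Pool.Agent.H60.BR.pf_sui tSU tSV tTE tLI Pool.Agent.H83.LS.Chain.lowx Pool.Agent.H83.LS.Chain.ple
theorem tAC2H93 : Pool.Agent.H93.AR.T_AC2 :=
  Pool.Agent.H93.BR.pf_ac2 tJB tAS tZC tZB tZN
theorem tAM2H93 : Pool.Agent.H93.AR.T_AM2 :=
  Pool.Agent.H54.BR.pf_am2 tJB tZN tZB tZC
theorem tKF : Pool.Agent.H83.AR.T_KF :=
  Pool.Agent.H73.BR.pf_kf tKPC tJM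
theorem tAC2H83 : Pool.Agent.H83.AR.T_AC2 :=
  Pool.Agent.H83.AR.ac2_of tAC2H93
theorem tAF : Pool.Agent.H93.AR.T_AF :=
  Pool.Agent.H31.BR.pf_af tZC tZB tZN tAM
theorem tRB : Pool.Agent.H83.AR.T_RB :=
  Pool.Agent.H33.AR.pf_rb tAF tAM tZB
theorem tRO : Pool.Agent.H83.AR.T_RO :=
  Pool.Agent.H33.AR.pf_ro tRA tRB tKW tGO tBZ tZB
theorem tRB2 : Pool.Agent.H83.AR.T_RB2 :=
  Pool.Agent.H87.BR.pf_rb2 tAF tAM tZB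
theorem tRO2 : Pool.Agent.H83.AR.T_RO2 :=
  Pool.Agent.H33.AR.pf_ro2 tRA tRB2 tKW tGO tBZ tZB
theorem tAM1 : Pool.Agent.H93.AR.T_AM1 :=
  Pool.Agent.H93.BR.pf_am1 tJB tAS tAM2H93
theorem tAQP : Pool.Agent.H93.AR.T_AQP :=
  Pool.Agent.H48.BR.pf_aqp tJB tAM1 tAM2H93 tAC2H93
theorem tAQS : Pool.Agent.H84.B2.T_AQS :=
  Pool.Agent.H3.BR.pf_aqs tAS tAC2H93 tJB tAM1 tAM2H93
theorem tGAQ : Pool.Agent.H84.B2.T_GAQ :=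
  Pool.Agent.H84.BR.pf_gaq tJB tAM1 tAM2H93 tZN tZB
theorem tAM2H83 : Pool.Agent.H83.AR.T_AM2 :=
  Pool.Agent.H83.AR.am2_of tAM1 tAM2H93
theorem tAF2 : Pool.Agent.H83.AR.T_AF2 :=
  Pool.Agent.H83.AR.af2_of tAM1 tAM2H93
theorem tPA : Pool.Agent.H83.AR.T_PA :=
  Pool.Agent.H42.BR.pf_pa tRO tKW tBZ Pool.Agent.H83.LS.Chain.wred tGO
theorem tPG : Pool.Agent.H83.AR.T_PG :=
  Pool.Agent.H35.BR.pf_pg tPA tWP Pool.Agent.H83.LS.Chain.s2d tGO tAM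
theorem tPI : Pool.Agent.H83.AR.T_PI :=
  Pool.Agent.H47.BR.pf_pi tPG tSU tSV tTE tAM Pool.Agent.H83.LS.Chain.ple
theorem tPA2 : Pool.Agent.H83.AR.T_PA2 :=
  Pool.Agent.H42.BR.pf_pa2 tRO2 tKW tBZ Pool.Agent.H83.LS.Chain.wred tGO
theorem tPG2 : Pool.Agent.H83.AR.T_PG2 :=
  Pool.Agent.H84.BR.PG2m.pf_pg2 tPA2 tWP2 tS22 tGO tAM
theorem tPI2 : Pool.Agent.H83.AR.T_PI2 :=
  Pool.Agent.H12.BR.pf_pi2 tPG2 tSUI tTZ tCZ tAM Pool.Agent.H83.LS.Chain.ple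
theorem tAD2 : Pool.Agent.H93.AR.T_AD2 :=
  Pool.Agent.H51.BR.pf_ad2 tJB tZP tZN tZB tAM1 tAM2H93
theorem tLI2 : Pool.Agent.H83.AR.T_LI2 :=
  Pool.Agent.H42.BR.pf_li2 tAM2H83
theorem tRAm : Pool.Agent.H83.AR.T_RAm :=
  Pool.Agent.H65.BR.pf_ram tKW tGMB tBZ tZB tAM2H83 tJM
theorem tRBm : Pool.Agent.H83.AR.T_RBm :=
  Pool.Agent.H12.BR.pf_rbm tAF2 tAM2H83 tZB tJM
theorem tROm : Pool.Agent.H83.AR.T_ROm :=
  Pool.Agent.H65.BR.pf_rom tRAm tRBm tKW tGMB tBZ tZB tJM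
theorem tMA : Pool.Agent.H83.AR.T_MA :=
  Pool.Agent.H62.BR.pf_ma tPI Pool.Agent.H83.LS.Chain.lowx Pool.Agent.H83.LS.Chain.radl Pool.Agent.H83.LS.Chain.ple Pool.Agent.H83.LS.Chain.yg tAM
theorem tMAI : Pool.Agent.H83.AR.T_MAI :=
  Pool.Agent.H67.BR.pf_mai tMA tLI
theorem tS1 : Pool.Agent.H83.AR.T_S1 :=
  Pool.Agent.H62.BR.pf_s1 tPI2 tMAI tSUI tTZ tCZ tFD tLI tAM Pool.Agent.H83.LS.Chain.ple Pool.Agent.H83.LS.Chain.yg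
theorem tPAm : Pool.Agent.H83.AR.T_PAm :=
  Pool.Agent.H42.BR.pf_pam tROm tKW tBZ Pool.Agent.H83.LS.Chain.wred tGMB tJM
theorem tWPm : Pool.Agent.H83.AR.T_WPm :=
  Pool.Agent.H73.BR.pf_wpm tAM tS1
theorem tMAL : Pool.Agent.H93.AR.T_MAL :=
  Pool.Agent.H83.AR.MAL_of_MA tMA
theorem tSG : Pool.Agent.H93.AR.T_SG :=
  Pool.Agent.H84.BR.pf_sg tMAL tAM tZN tZB Pool.Agent.H83.LS.Chain.marc Pool.Agent.H83.LS.Chain.radl Pool.Agent.H83.LS.Chain.ple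
theorem tGG : Pool.Agent.H83.AR.T_GG :=
  Pool.Agent.H48.BR.pf_gg tPAm tWPm tS1 tKF tGMB tGC tLI2 tAM2H83 tAC2H83 Pool.Agent.H83.LS.Chain.ple Pool.Agent.H83.LS.Chain.yg tJM
theorem tGGG : Pool.Agent.H84.B2.T_GGG :=
  Pool.Agent.H33.BR.pf_ggg tGG tSV2 tAQP Pool.Agent.H83.LS.Chain.ple Pool.Agent.H83.LS.Chain.yg tJM
theorem tBL1 : Pool.Agent.H93.AR.T_BL1 :=
  Pool.Agent.H20.BR.pf_bl1 tSG tFX tAM tAC tAD Pool.Agent.H83.LS.Chain.ple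
theorem tHG1 : Pool.Agent.H93.AR.T_HG1 :=
  Pool.Agent.H60.BR.pf_hg1 tBL1 Pool.Agent.H83.LS.Chain.radl Pool.Agent.H83.LS.Chain.yg Pool.Agent.H83.LS.Chain.rotm
theorem tGG1 : Pool.Agent.H84.B2.T_GG1 :=
  Pool.Agent.H67.BR.pf_gg1 tGGG tQM tAQP tAQS tSWF tJM
theorem tREM : Pool.Agent.H84.B2.T_REM :=
  Pool.Agent.H84.BR.pf_rem tJB tAQP tTR tGG1
theorem tFN1 : Pool.Agent.H93.AR.T_FN1 :=
  Pool.Agent.H71.BR.pf_fn1 tHG1 Pool.Agent.H83.LS.Chain.lowf Pool.Agent.H83.LS.Chain.yg Pool.Agent.H83.LS.Chain.ple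
theorem tMA2 : Pool.Agent.H84.B2.T_MA2 :=
  Pool.Agent.H84.BR.pf_ma2 tJB tAQP tREM tGGG
theorem tEND1 : Pool.Agent.H84.BR.T_END1 :=
  Pool.Agent.H84.BR.pf_end1 tFN1
theorem tBL2 : Pool.Agent.H84.B2.T_BL2 :=
  Pool.Agent.H86.B2.pf_bl2 tMA2 tGAQ tAQP tAM1 tAM2H93 tAD2 tFX Pool.Agent.H83.LS.Chain.marc Pool.Agent.H83.LS.Chain.radl Pool.Agent.H83.LS.Chain.ple
theorem tHG2 : Pool.Agent.H84.B2.T_HG2 :=
  Pool.Agent.H34.BR.pf_hg2 tBL2 Pool.Agent.H83.LS.Chain.radl Pool.Agent.H83.LS.Chain.yg tROT2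
theorem tFN2 : Pool.Agent.H84.B2.T_FN2 :=
  Pool.Agent.H69.BRF.pf_fn2 tHG2 Pool.Agent.H83.LS.Chain.lowf Pool.Agent.H83.LS.Chain.yg Pool.Agent.H83.LS.Chain.ple
theorem tEND : Pool.Agent.H84.BR.T_END :=
  Pool.Agent.H69.BRF.pf_end tEND1 tFN2

end Pool.Agent.H84.BR.Two
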