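import Pool.Agent.H84.BR.Final
import Pool.Agent.H84.BR.Main2

set_option autoImplicit false

namespace Pool.Agent.H84.BR.OldAngularDerivative

open SchwartzMap Pool.Agent.H84.BR Pool.Agent.H84.BR.CD
open scoped NNReal

/-- Local smoothing for the wave equation in every dimension `d = a + b ≥ 3`, for every
`p ≥ p_d = 2d/(d-1)` and every `σ < 1/p`, for all Schwartz data, with a loss of the fraction `2/p`
of one derivative along the rotations of the first `a` and of the last `b` coordinates. -/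
theorem result (a b : ℕ) (ha : 2 ≤ a) (hb : 1 ≤ b) (p σ : ℝ)
    (hp : 2 * ((a : ℝ) + b) / (a + b - 1) ≤ p) (hσ : σ < 1 / p) :
    ∃ C : ℝ≥0, ∀ u₀ u₁ : 𝓢(EE (a + b), ℂ), solNorm p u₀ u₁ ≤
      C * (datN p σ u₀ u₁ ^ (1 - 2 / p) *
        (datN p σ u₀ u₁ + angR a p σ u₀ u₁) ^ (2 / p)) :=
  final Two.tEND a b ha hb p σ hp hσ

end Pool.Agent.H84.BR.OldAngularDerivative
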